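import Pool.Agent.Lib.H10.LPF.Cover
import Pool.Agent.Lib.Sieve.Averages

/-!
# Chunk CMB: choice of the residue classes
-/

open Finset

namespace Pool.Agent.Lib.H16L

theorem cmb_crt (n : ℕ) (f : ℕ → ℕ) :
    ∃ a < primorial n, ∀ p : ℕ, p.Prime → p ≤ n → a ≡ f p [MOD p] := by
  have hne : ∀ p ∈ Pool.Agent.Lib.Sieve.primesUpTo n, (id p) ≠ 0 := by
    intro p hp
    exact (Pool.Agent.Lib.Sieve.mem_primesUpTo.1 hp).1.ne_zero
  have hcop : Set.Pairwise (↑(Pool.Agent.Lib.Sieve.primesUpTo n) : Set ℕ)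
      (Function.onFun Nat.Coprime id) := by
    intro p hp q hq hpq
    exact (Nat.coprime_primes (Pool.Agent.Lib.Sieve.mem_primesUpTo.1 hp).1
      (Pool.Agent.Lib.Sieve.mem_primesUpTo.1 hq).1).2 hpq
  refine ⟨Nat.chineseRemainderOfFinset f id _ hne hcop,
    Nat.chineseRemainderOfFinset_lt_prod f id hne hcop, fun p hp hpn => ?_⟩
  exact (Nat.chineseRemainderOfFinset f id _ hne hcop).2 p
    (Pool.Agent.Lib.Sieve.mem_primesUpTo.2 ⟨hp, hpn⟩)

theorem cmb_dvd {p a k m : ℕ} (hp : 1 ≤ p) (ha : a ≡ (p - 1) * m [MOD p]) (hk : k ≡ m [MOD p]) :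
    p ∣ a + k := by
  have h1 : a + k ≡ (p - 1) * m + m [MOD p] := ha.add hk
  have h2 : (p - 1) * m + m = p * m := by
    conv_lhs => rw [← Nat.succ_mul]
    congr 1
    omega
  rw [h2] at h1
  have h3 : a + k ≡ 0 [MOD p] := h1.trans ((Nat.modEq_zero_iff_dvd).2 (dvd_mul_right p m))
  exact (Nat.modEq_zero_iff_dvd).1 h3

theorem cmb_shift {p k c m : ℕ} (hp : 1 ≤ p) (h : k + c ≡ m [MOD p]) :
    k ≡ m + (p - 1) * c [MOD p] := by
  refine Nat.ModEq.add_right_cancel' c ?_
  have h2 : m + (p - 1) * c + c = m + p * c := by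
    rw [add_assoc]
    congr 1
    conv_lhs => rw [← Nat.succ_mul]
    congr 1
    omega
  rw [h2]
  refine h.trans ?_
  have h3 : m + p * c ≡ m + 0 [MOD p] :=
    Nat.ModEq.add_left m ((Nat.modEq_zero_iff_dvd).2 (dvd_mul_right p c))
  exact h3.symm

/-- Choice of the classes `k mod p` (`p ≤ y` prime) removed by `p`, i.e. `a ≡ - class mod p`:
* `p ≤ K`: the class of `π(p)`;
* `K < p ≤ z`: `k + c ≡ r p`;
* `z < p ≤ y1`: `k + c ≡ 0`;
* `y1 < p ≤ y`: one prime for each element of `S0` (`H10.LPF.matching`).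
Here `r` is given by `H10.LPF.greedy` for
`T = {h ≤ H + primorial w : no prime p ∈ (z, y1] divides h}` and the set of primes
`Q = {p ≤ z : p ≤ w or K < p}`, and `c < primorial w` is chosen (Chinese remainder theorem,
`Nat.chineseRemainderOfFinset` as in `H10.LPF.exists_blocked`) such that
`π(p) + c ≡ r p mod p` for all primes `p ≤ w`. If `(a + k, primorial y) = 1` then `h = k + c`
is in `T` and `h % p ≠ r p` for all `p ∈ Q`, so the number of such `k` is at most the number of
these `h`, which `greedy` bounds. (`a` again from `Nat.chineseRemainderOfFinset`,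
`Nat.chineseRemainderOfFinset_lt_prod`; `p ∣ a + k` if `k ≡ class`.) -/
theorem comb (w K z y1 y H : ℕ) (hwK : w ≤ K) (hKz : K ≤ z) (hzy1 : z ≤ y1) (hy1y : y1 ≤ y)
    (S0 : Finset ℕ) (hS0 : S0.card ≤ ((Ioc y1 y).filter Nat.Prime).card) :
    ∃ a < primorial y,
      (∀ p : ℕ, p.Prime → p ≤ K → p ∣ a + Nat.primeCounting p) ∧
      (∀ k ∈ S0, ∃ p : ℕ, p.Prime ∧ p ≤ y ∧ p ∣ a + k) ∧
      (((Icc 1 H).filter (fun k => Nat.Coprime (a + k) (primorial y))).card : ℝ)
        ≤ ((Icc 1 (H + primorial w)).filter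
            (fun h => ∀ p ∈ (Pool.Agent.Lib.Sieve.primesUpTo y1).filter (fun p => z < p),
              ¬ p ∣ h)).card
          * ∏ p ∈ (Pool.Agent.Lib.Sieve.primesUpTo z).filter (fun p => p ≤ w ∨ K < p),
              (1 - 1 / (p : ℝ)) := by
  classical
  set T := (Icc 1 (H + primorial w)).filter
    (fun h => ∀ p ∈ (Pool.Agent.Lib.Sieve.primesUpTo y1).filter (fun p => z < p), ¬ p ∣ h) with hT
  set Q := (Pool.Agent.Lib.Sieve.primesUpTo z).filter (fun p => p ≤ w ∨ K < p) with hQ
  obtain ⟨r, hr⟩ := Pool.Agent.Lib.H10.LPF.greedy T Q (by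
    intro p hp
    rw [hQ, mem_filter, Pool.Agent.Lib.Sieve.mem_primesUpTo] at hp
    exact hp.1.1.two_le)
  obtain ⟨r3, hr3⟩ := Pool.Agent.Lib.H10.LPF.matching S0 _ hS0
  obtain ⟨c, hc, hc'⟩ := cmb_crt w (fun p => r p + (p - 1) * Nat.primeCounting p)
  obtain ⟨a, ha, ha'⟩ := cmb_crt y (fun p => (p - 1) * (if p ≤ K then Nat.primeCounting p else
    if p ≤ z then r p + (p - 1) * c else if p ≤ y1 then (p - 1) * c else r3 p))
  have hKy : K ≤ y := hKz.trans (hzy1.trans hy1y)
  refine ⟨a, ha, ?_, ?_, ?_⟩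
  · intro p hp hpK
    have h1 := ha' p hp (hpK.trans hKy)
    rw [if_pos hpK] at h1
    exact cmb_dvd hp.one_le h1 rfl
  · intro k hk
    obtain ⟨p, hp, hkp⟩ := hr3 k hk
    rw [mem_filter, mem_Ioc] at hp
    obtain ⟨⟨hp1, hp2⟩, hp3⟩ := hp
    refine ⟨p, hp3, hp2, ?_⟩
    have h1 := ha' p hp3 hp2
    rw [if_neg (by omega), if_neg (by omega), if_neg (by omega)] at h1
    refine cmb_dvd hp3.one_le h1 ?_
    rw [← hkp]
    exact (Nat.mod_modEq k p).symm
  · refine le_trans ?_ hr
    have hinj : ((Icc 1 H).filter (fun k => Nat.Coprime (a + k) (primorial y))).card ≤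
        (T.filter (fun s => ∀ p ∈ Q, s % p ≠ r p)).card := by
      refine card_le_card_of_injOn (fun k => k + c) ?_ ?_
      · intro k hk
        have hk := mem_filter.1 (mem_coe.1 hk)
        rw [mem_Icc] at hk
        obtain ⟨⟨hk1, hk2⟩, hcop⟩ := hk
        have hnd : ∀ p : ℕ, p.Prime → p ≤ y → ¬ p ∣ a + k := by
          intro p hp hpy hdvd
          have h1 : p ∣ primorial y := dvd_prod_of_mem (fun p => p)
            (Pool.Agent.Lib.Sieve.mem_primesUpTo.2 ⟨hp, hpy⟩)
          exact hp.one_lt.ne' (Nat.dvd_one.1 (hcop ▸ Nat.dvd_gcd hdvd h1))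
        refine mem_coe.2 (mem_filter.2 ⟨mem_filter.2 ⟨mem_Icc.2 ⟨?_, ?_⟩, ?_⟩, ?_⟩)
        · show 1 ≤ k + c
          omega
        · show k + c ≤ H + primorial w
          omega
        · intro p hp hdvd
          rw [mem_filter, Pool.Agent.Lib.Sieve.mem_primesUpTo] at hp
          obtain ⟨⟨hp1, hp2⟩, hp3⟩ := hp
          have h1 := ha' p hp1 (hp2.trans hy1y)
          rw [if_neg (by omega), if_neg (by omega), if_pos hp2] at h1
          refine hnd p hp1 (hp2.trans hy1y) (cmb_dvd hp1.one_le h1 ?_)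
          have h2 := cmb_shift (k := k) (c := c) (m := 0) hp1.one_le
            ((Nat.modEq_zero_iff_dvd).2 hdvd)
          rwa [zero_add] at h2
        · intro p hp hmod
          rw [hQ, mem_filter, Pool.Agent.Lib.Sieve.mem_primesUpTo] at hp
          obtain ⟨⟨hp1, hp2⟩, hp3⟩ := hp
          have hpy : p ≤ y := hp2.trans (hzy1.trans hy1y)
          have h1 := ha' p hp1 hpy
          have hkc : k + c ≡ r p [MOD p] := by
            rw [← hmod]
            exact (Nat.mod_modEq _ p).symm
          by_cases hpK : p ≤ K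
          · have hpw : p ≤ w := by omega
            rw [if_pos hpK] at h1
            refine hnd p hp1 hpy (cmb_dvd hp1.one_le h1 ?_)
            refine Nat.ModEq.add_right_cancel' c (hkc.trans ?_)
            have h2 := (hc' p hp1 hpw).add_left (Nat.primeCounting p)
            refine Nat.ModEq.trans ?_ h2.symm
            have h3 : Nat.primeCounting p + (r p + (p - 1) * Nat.primeCounting p) =
                r p + p * Nat.primeCounting p := by
              have h4 : (p - 1) * Nat.primeCounting p + Nat.primeCounting p =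
                  p * Nat.primeCounting p := by
                conv_lhs => rw [← Nat.succ_mul]
                congr 1
                have := hp1.one_le
                omega
              omega
            rw [h3]
            have h5 : r p + p * Nat.primeCounting p ≡ r p + 0 [MOD p] :=
              Nat.ModEq.add_left _ ((Nat.modEq_zero_iff_dvd).2 (dvd_mul_right p _))
            exact h5.symm
          · rw [if_neg hpK, if_pos hp2] at h1
            exact hnd p hp1 hpy (cmb_dvd hp1.one_le h1 (cmb_shift hp1.one_le hkc))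
      · intro k _ k' _ h
        exact Nat.add_right_cancel h
    exact_mod_cast hinj

end Pool.Agent.Lib.H16L
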