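import Pool.Agent.Lib.H56G.ErMain

/-!
# Chunk ERN: few numbers survive the class zero
-/

open Finset Real

namespace Pool.Agent.Lib.H16L

open Pool.Agent.Lib.H56G

/-- The numerical part: `X, X2, X3, X4` are the iterated logarithms of `x`. -/
theorem ern_core (C K c0 c X X2 X3 X4 : ℝ) (hC : 0 < C) (hK : 0 ≤ K) (hc0 : 0 < c0)
    (hc : 0 < c) (hc1 : c ≤ 1) (hcc : 2560000 * C * c ≤ c0)
    (hlarge : ∀ H y : ℕ, 2 ≤ y → y ≤ H →
      (((Icc 1 H).filter (fun h => ∃ q ∈ h.primeFactors, y < q)).card : ℝ)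
        ≤ C * (H / log y) * (1 + log ((H : ℝ) / y)))
    (hsmooth : ∀ (z H : ℕ) (η : ℝ), 2 ≤ z → 0 < η → η ≤ 1 / 10 →
      (((Icc 1 H).filter (fun h => ∀ p ∈ h.primeFactors, p ≤ z)).card : ℝ)
        ≤ (H : ℝ) ^ (1 - η) * (exp (K + 3 * exp (η * log z)) * log z))
    (hX : 96 ≤ X) (hX2 : log X = X2) (hX3 : log X2 = X3) (hX4 : log X3 = X4) (h4 : 1 ≤ X4)
    (h23 : 160 * X3 ≤ X2) (hcX : X3 ^ 2 ≤ c * X2 ^ 2) (h34 : X4 ≤ X3)
    (hQ : 64 * X3 ≤ X2 * X4)
    (hQ2 : 16 * X3 * (4 * X3 + 1) ≤ X2)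
    (hK2 : 10000 * exp K ≤ c0 * X2 ^ 2)
    (h16 : 2 * log 32 ≤ X2) (h16' : 1 + log 64 ≤ X3) :
    ∃ z : ℕ, ⌊X2 ^ 4⌋₊ ≤ z ∧ z ≤ ⌊X / 8⌋₊ / 2 ∧
      ((((Icc 1 (2 * ⌊c * (X * X2 ^ 2 * X4 / X3 ^ 2)⌋₊)).filter
          (fun h => ∀ p ∈ h.primeFactors, p ≤ z)).card : ℝ)
        + (((Icc 1 (2 * ⌊c * (X * X2 ^ 2 * X4 / X3 ^ 2)⌋₊)).filter
            (fun h => ∃ q ∈ h.primeFactors, ⌊X / 8⌋₊ / 2 < q)).card : ℝ))
        * (2500 / log z) ≤ c0 * X := by
  have hX0 : 0 < X := by linarith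
  have hX3p : 1 ≤ X3 := h4.trans h34
  have hX30 : 0 < X3 := by linarith
  have hX20 : 0 < X2 := by linarith
  have hX40 : 0 < X4 := by linarith
  have hX2' : X2 = exp X3 := by rw [← hX3, Real.exp_log hX20]
  have hX3' : X3 = exp X4 := by rw [← hX4, Real.exp_log hX30]
  have hX' : X = exp X2 := by rw [← hX2, Real.exp_log hX0]
  -- `y`
  set y : ℕ := ⌊X / 8⌋₊ / 2 with hy
  have hy8 : X / 8 - 1 ≤ (⌊X / 8⌋₊ : ℝ) := by
    have := Nat.lt_floor_add_one (X / 8)
    linarith
  have hydiv : (⌊X / 8⌋₊ : ℝ) ≤ 2 * y + 1 := by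
    have : ⌊X / 8⌋₊ ≤ 2 * y + 1 := by omega
    exact_mod_cast this
  have hydiv2 : 2 * (y : ℝ) ≤ (⌊X / 8⌋₊ : ℝ) := by
    have : 2 * y ≤ ⌊X / 8⌋₊ := by omega
    exact_mod_cast this
  have hy1 : X / 32 ≤ y := by linarith
  have hy2 : (y : ℝ) ≤ X / 16 := by
    have : (⌊X / 8⌋₊ : ℝ) ≤ X / 8 := Nat.floor_le (by positivity)
    linarith
  have hy3 : 2 ≤ y := by
    have : (3 : ℝ) ≤ y := by linarith
    have : 3 ≤ y := by exact_mod_cast this
    omega
  have hy0 : (0 : ℝ) < y := by linarith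
  have hlogy : X2 / 2 ≤ log y := by
    have h1 := Real.log_le_log (by positivity) hy1
    rw [Real.log_div hX0.ne' (by norm_num), hX2] at h1
    linarith
  have hlogy0 : 0 < log y := by linarith
  -- `H`
  set F := X * X2 ^ 2 * X4 / X3 ^ 2 with hF
  have hF0 : 0 < F := by positivity
  set H : ℕ := 2 * ⌊c * F⌋₊ with hH
  have hHle : (H : ℝ) ≤ 2 * (c * F) := by
    have : (⌊c * F⌋₊ : ℝ) ≤ c * F := Nat.floor_le (by positivity)
    rw [hH]
    push_cast
    linarith
  have hFX : F ≤ X * X2 ^ 2 := by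
    rw [hF, div_le_iff₀ (by positivity)]
    have h1 : X4 ≤ X3 ^ 2 := by nlinarith
    exact mul_le_mul_of_nonneg_left h1 (by positivity)
  have hHX : (H : ℝ) ≤ 2 * (X * X2 ^ 2) := by
    refine hHle.trans ?_
    have := mul_le_mul_of_nonneg_right hc1 hF0.le
    linarith
  have hXF : X ≤ c * F := by
    rw [hF]
    have h1 : c * (X * X2 ^ 2 * X4 / X3 ^ 2) = X * (c * X2 ^ 2 / X3 ^ 2) * X4 := by
      field_simp
    rw [h1]
    have h2 : 1 ≤ c * X2 ^ 2 / X3 ^ 2 := by
      rw [le_div_iff₀ (by positivity), one_mul]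
      exact hcX
    have h3 : X * 1 ≤ X * (c * X2 ^ 2 / X3 ^ 2) := mul_le_mul_of_nonneg_left h2 hX0.le
    have h5 : X * (c * X2 ^ 2 / X3 ^ 2) * 1 ≤ X * (c * X2 ^ 2 / X3 ^ 2) * X4 :=
      mul_le_mul_of_nonneg_left h4 (by positivity)
    linarith
  have hyH : y ≤ H := by
    have : y ≤ ⌊c * F⌋₊ := by
      apply Nat.le_floor
      linarith
    omega
  have hyH' : (y : ℝ) ≤ H := by exact_mod_cast hyH
  have hH0 : (0 : ℝ) < H := by linarith
  -- `z`
  set Q := X2 * X4 / (16 * X3) with hQdef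
  have hQ4 : 4 ≤ Q := by
    rw [hQdef, le_div_iff₀ (by positivity)]
    linarith
  have hQ5 : 4 * X3 + 1 ≤ Q := by
    rw [hQdef, le_div_iff₀ (by positivity)]
    nlinarith
  set z : ℕ := ⌊exp Q⌋₊ with hz
  have hzle : (z : ℝ) ≤ exp Q := Nat.floor_le (Real.exp_pos _).le
  have hexpQ : 5 ≤ exp Q := by
    have := Real.add_one_le_exp Q
    linarith
  have hzge : exp Q / 2 ≤ z := by
    have := Nat.lt_floor_add_one (exp Q)
    rw [← hz] at this
    linarith
  have hz2' : (2 : ℝ) ≤ z := by linarith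
  have hz2 : 2 ≤ z := by exact_mod_cast hz2'
  have hz0 : (0 : ℝ) < z := by linarith
  have hlogz_le : log z ≤ Q := by
    have := Real.log_le_log hz0 hzle
    rwa [Real.log_exp] at this
  have hlogz_ge : Q / 2 ≤ log z := by
    have h2 := Real.log_le_log (by positivity) hzge
    rw [Real.log_div (Real.exp_pos _).ne' (by norm_num), Real.log_exp] at h2
    have := Real.log_two_lt_d9
    linarith
  have hlogz0 : 0 < log z := by linarith
  have hQX2 : Q ≤ X2 / 16 := by
    rw [hQdef, div_le_div_iff₀ (by positivity) (by norm_num)]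
    nlinarith
  have hzy : z ≤ y := by
    have h1 : log z ≤ log y := by linarith
    have := (Real.log_le_log_iff hz0 hy0).mp h1
    exact_mod_cast this
  have hKQ : X2 ^ 4 ≤ exp Q := by
    have h1 : X2 ^ 4 = exp (4 * X3) := by
      rw [hX2', ← Real.exp_nat_mul]
      norm_num
    rw [h1]
    exact Real.exp_le_exp.mpr (by linarith)
  have hKz : ⌊X2 ^ 4⌋₊ ≤ z := Nat.floor_le_floor hKQ
  refine ⟨z, hKz, hzy, ?_⟩
  -- large prime factors
  have hL := hlarge H y hy3 hyH
  have hL2 : C * (H / log y) * (1 + log ((H : ℝ) / y)) ≤ 8 * C * H * X3 / X2 := by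
    have h1 : log ((H : ℝ) / y) ≤ log 64 + 2 * X3 := by
      have h2 : (H : ℝ) / y ≤ 64 * X2 ^ 2 := by
        rw [div_le_iff₀ hy0]
        calc (H : ℝ) ≤ 2 * (X * X2 ^ 2) := hHX
          _ = 64 * X2 ^ 2 * (X / 32) := by ring
          _ ≤ 64 * X2 ^ 2 * y := mul_le_mul_of_nonneg_left hy1 (by positivity)
      have h3 := Real.log_le_log (by positivity) h2
      rw [Real.log_mul (by norm_num) (by positivity), Real.log_pow, hX3] at h3
      push_cast at h3
      exact h3
    have h2 : 1 + log ((H : ℝ) / y) ≤ 4 * X3 := by linarith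
    have h3 : (H : ℝ) / log y ≤ H / (X2 / 2) :=
      div_le_div_of_nonneg_left hH0.le (by positivity) hlogy
    calc C * (H / log y) * (1 + log ((H : ℝ) / y))
        ≤ C * (H / log y) * (4 * X3) := mul_le_mul_of_nonneg_left h2 (by positivity)
      _ ≤ C * (H / (X2 / 2)) * (4 * X3) := by
          apply mul_le_mul_of_nonneg_right _ (by positivity)
          exact mul_le_mul_of_nonneg_left h3 hC.le
      _ = 8 * C * H * X3 / X2 := by
          field_simp
          ring
  -- smooth numbers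
  have hη1 : 16 * X3 / X2 ≤ 1 / 10 := by
    rw [div_le_div_iff₀ hX20 (by norm_num)]
    linarith
  have hS := hsmooth z H (16 * X3 / X2) hz2 (by positivity) hη1
  have hS2 : (H : ℝ) ^ (1 - 16 * X3 / X2) * (exp (K + 3 * exp (16 * X3 / X2 * log z)) * log z)
      ≤ 2 * exp K * X / X2 ^ 2 := by
    have h1 : 16 * X3 / X2 * log z ≤ X4 := by
      calc 16 * X3 / X2 * log z ≤ 16 * X3 / X2 * Q :=
            mul_le_mul_of_nonneg_left hlogz_le (by positivity)
        _ = X4 := by
            rw [hQdef]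
            field_simp
    have h2 : exp (16 * X3 / X2 * log z) ≤ X3 := by
      rw [hX3']
      have := Real.exp_le_exp.mpr h1
      rw [hX3'] at this
      exact this
    have h3 : exp (K + 3 * exp (16 * X3 / X2 * log z)) ≤ exp K * X2 ^ 3 := by
      rw [Real.exp_add]
      apply mul_le_mul_of_nonneg_left _ (Real.exp_pos _).le
      calc exp (3 * exp (16 * X3 / X2 * log z)) ≤ exp (3 * X3) :=
            Real.exp_le_exp.mpr (by linarith)
        _ = X2 ^ 3 := by
            rw [hX2', ← Real.exp_nat_mul]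
            norm_num
    have h5 : (H : ℝ) ^ (1 - 16 * X3 / X2) ≤ H * (1 / X2 ^ 8) := by
      rw [Real.rpow_sub hH0, Real.rpow_one]
      have h6 : X2 ^ 8 ≤ (H : ℝ) ^ (16 * X3 / X2) := by
        calc X2 ^ 8 = exp (8 * X3) := by
              rw [hX2', ← Real.exp_nat_mul]
              norm_num
          _ ≤ exp (log y * (16 * X3 / X2)) := by
              apply Real.exp_le_exp.mpr
              calc 8 * X3 = X2 / 2 * (16 * X3 / X2) := by
                    field_simp
                    ring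
                _ ≤ log y * (16 * X3 / X2) :=
                    mul_le_mul_of_nonneg_right hlogy (by positivity)
          _ = (y : ℝ) ^ (16 * X3 / X2) := by rw [Real.rpow_def_of_pos hy0]
          _ ≤ (H : ℝ) ^ (16 * X3 / X2) :=
              Real.rpow_le_rpow hy0.le hyH' (by positivity)
      rw [mul_one_div]
      exact div_le_div_of_nonneg_left hH0.le (by positivity) h6
    have h7 : log z ≤ X2 := by linarith
    calc (H : ℝ) ^ (1 - 16 * X3 / X2) * (exp (K + 3 * exp (16 * X3 / X2 * log z)) * log z)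
        ≤ (H * (1 / X2 ^ 8)) * ((exp K * X2 ^ 3) * X2) := by
          apply mul_le_mul h5 _ (by positivity) (by positivity)
          apply mul_le_mul h3 h7 hlogz0.le (by positivity)
      _ = exp K * H / X2 ^ 4 := by
          field_simp
      _ ≤ exp K * (2 * (X * X2 ^ 2)) / X2 ^ 4 := by
          apply div_le_div_of_nonneg_right _ (by positivity)
          exact mul_le_mul_of_nonneg_left hHX (Real.exp_pos _).le
      _ = 2 * exp K * X / X2 ^ 2 := by
          field_simp
  have hS3 : 2 * exp K * X / X2 ^ 2 * 2500 ≤ c0 * X / 2 := by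
    rw [div_mul_eq_mul_div, div_le_div_iff₀ (by positivity) (by norm_num)]
    calc 2 * exp K * X * 2500 * 2 = X * (10000 * exp K) := by ring
      _ ≤ X * (c0 * X2 ^ 2) := mul_le_mul_of_nonneg_left hK2 hX0.le
      _ = c0 * X * X2 ^ 2 := by ring
  have hL3 : 8 * C * H * X3 / X2 * (2500 / log z) ≤ c0 * X / 2 := by
    calc 8 * C * H * X3 / X2 * (2500 / log z) ≤ 8 * C * H * X3 / X2 * (2500 / (Q / 2)) := by
          apply mul_le_mul_of_nonneg_left _ (by positivity)
          exact div_le_div_of_nonneg_left (by norm_num) (by positivity) hlogz_ge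
      _ = 640000 * C * H * (X3 ^ 2 / (X2 ^ 2 * X4)) := by
          rw [hQdef]
          field_simp
          ring
      _ ≤ 640000 * C * (2 * (c * F)) * (X3 ^ 2 / (X2 ^ 2 * X4)) := by
          apply mul_le_mul_of_nonneg_right _ (by positivity)
          exact mul_le_mul_of_nonneg_left hHle (by positivity)
      _ = 1280000 * C * c * X := by
          rw [hF]
          field_simp
          ring
      _ ≤ c0 * X / 2 := by
          have h8 := mul_le_mul_of_nonneg_right hcc hX0.le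
          have h9 : 2560000 * C * c * X = 2 * (1280000 * C * c * X) := by ring
          linarith
  have hsum : (((Icc 1 H).filter (fun h => ∀ p ∈ h.primeFactors, p ≤ z)).card : ℝ)
      ≤ 2 * exp K * X / X2 ^ 2 := hS.trans hS2
  have hlarge' : (((Icc 1 H).filter (fun h => ∃ q ∈ h.primeFactors, y < q)).card : ℝ)
      ≤ 8 * C * H * X3 / X2 := hL.trans hL2
  rw [add_mul]
  have h1 : (((Icc 1 H).filter (fun h => ∀ p ∈ h.primeFactors, p ≤ z)).card : ℝ) * (2500 / log z)
      ≤ c0 * X / 2 := by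
    have h2 : 1 ≤ log z := by linarith
    have h3 : 2500 / log z ≤ 2500 := div_le_self (by norm_num) h2
    calc (((Icc 1 H).filter (fun h => ∀ p ∈ h.primeFactors, p ≤ z)).card : ℝ) * (2500 / log z)
        ≤ (2 * exp K * X / X2 ^ 2) * 2500 :=
          mul_le_mul hsum h3 (by positivity) (by positivity)
      _ ≤ c0 * X / 2 := hS3
  have h2 : (((Icc 1 H).filter (fun h => ∃ q ∈ h.primeFactors, y < q)).card : ℝ)
      * (2500 / log z) ≤ c0 * X / 2 :=
    (mul_le_mul_of_nonneg_right hlarge' (by positivity)).trans hL3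
  linarith

/-- Pure asymptotics, variant of `H56G.er_main` (copy `erm_core`; there `y1 = y`, here `y1 = y/2`;
`2 H` instead of `H`; the constant `2500` instead of `1`). `X = log x`, `X2, X3, X4` the further
iterated logarithms, `y = ⌊X/8⌋`, `z = ⌊exp (X2 X4/(16 X3))⌋`, `H = ⌊c ff x⌋`.
`er_large` with `y / 2` and `H10.LPF.smooth`/`H20R.smooth_le` as in `erm_core`. -/
theorem er_num : ∀ c0 : ℝ, 0 < c0 → ∃ c : ℝ, 0 < c ∧ ∃ x0 : ℝ, ∀ x : ℝ, x0 ≤ x →
    ∃ z : ℕ, ⌊log (log x) ^ 4⌋₊ ≤ z ∧ z ≤ ⌊log x / 8⌋₊ / 2 ∧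
      ((((Icc 1 (2 * ⌊c * ff x⌋₊)).filter (fun h => ∀ p ∈ h.primeFactors, p ≤ z)).card : ℝ)
        + (((Icc 1 (2 * ⌊c * ff x⌋₊)).filter
            (fun h => ∃ q ∈ h.primeFactors, ⌊log x / 8⌋₊ / 2 < q)).card : ℝ))
        * (2500 / log z) ≤ c0 * log x := by
  intro c0 hc0
  obtain ⟨C, hC, hlarge⟩ := er_large
  set K : ℝ := 4 + 3 * H20R.K0 with hK
  have hK0 : 0 ≤ H20R.K0 := tsum_nonneg fun n => by positivity
  set c := min 1 (c0 / (2560000 * C)) with hc
  have hcpos : 0 < c := lt_min one_pos (by positivity)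
  have hcle : c ≤ 1 := min_le_left _ _
  have hcc : 2560000 * C * c ≤ c0 := by
    have h1 : c ≤ c0 / (2560000 * C) := min_le_right _ _
    rw [le_div_iff₀ (by positivity)] at h1
    linarith
  refine ⟨c, hcpos, ?_⟩
  -- limits
  have t1 : Filter.Tendsto (fun x : ℝ => log x) Filter.atTop Filter.atTop :=
    Real.tendsto_log_atTop
  have t2 := Real.tendsto_log_atTop.comp t1
  have t3 := Real.tendsto_log_atTop.comp t2
  have t4 := Real.tendsto_log_atTop.comp t3
  have e1 : ∀ᶠ v : ℝ in Filter.atTop, 160 * log v ≤ v := by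
    have h3 := Real.isLittleO_log_id_atTop.def (show (0 : ℝ) < 1 / 160 by norm_num)
    filter_upwards [h3, Filter.eventually_ge_atTop 1] with v hv hv1
    have hlog : 0 ≤ log v := Real.log_nonneg hv1
    rw [Real.norm_of_nonneg hlog, id, Real.norm_of_nonneg (by linarith)] at hv
    linarith
  have e2 : ∀ᶠ v : ℝ in Filter.atTop, log v ^ 2 ≤ c * v ^ 2 := by
    have h3 := Real.isLittleO_log_id_atTop.def (show (0 : ℝ) < √c by positivity)
    filter_upwards [h3, Filter.eventually_ge_atTop 1] with v hv hv1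
    have hlog : 0 ≤ log v := Real.log_nonneg hv1
    rw [Real.norm_of_nonneg hlog, id, Real.norm_of_nonneg (by linarith)] at hv
    calc log v ^ 2 ≤ (√c * v) ^ 2 := pow_le_pow_left₀ hlog hv 2
      _ = c * v ^ 2 := by rw [mul_pow, Real.sq_sqrt hcpos.le]
  have e3 : ∀ᶠ v : ℝ in Filter.atTop, 10000 * exp K ≤ c0 * v ^ 2 := by
    filter_upwards [Filter.eventually_ge_atTop (max 1 (10000 * exp K / c0))] with v hv
    have h1 : 1 ≤ v := (le_max_left _ _).trans hv
    have h2 : 10000 * exp K / c0 ≤ v := (le_max_right _ _).trans hv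
    rw [div_le_iff₀ hc0] at h2
    have h3 : v ≤ v ^ 2 := by nlinarith
    nlinarith
  have e4 : ∀ᶠ v : ℝ in Filter.atTop, log v ≤ v := by
    filter_upwards [Filter.eventually_ge_atTop 1] with v hv
    have := Real.log_le_sub_one_of_pos (show 0 < v by linarith)
    linarith
  have e5 : ∀ᶠ v : ℝ in Filter.atTop, 16 * log v * (4 * log v + 1) ≤ v := by
    have h3 := (isLittleO_log_rpow_atTop (show (0 : ℝ) < 1 / 2 by norm_num)).def
      (show (0 : ℝ) < 1 / 16 by norm_num)
    filter_upwards [h3, Filter.eventually_ge_atTop (exp 1)] with v hv hv1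
    have hv0 : 0 < v := (Real.exp_pos 1).trans_le hv1
    have hlog : 1 ≤ log v := by
      rw [Real.le_log_iff_exp_le hv0]
      exact hv1
    rw [Real.norm_of_nonneg (by linarith), Real.norm_of_nonneg (by positivity),
      ← Real.sqrt_eq_rpow] at hv
    have h5 := Real.sq_sqrt hv0.le
    have h6 : 0 ≤ √v := Real.sqrt_nonneg v
    nlinarith
  have main : ∀ᶠ x : ℝ in Filter.atTop,
      96 ≤ log x ∧ 1 ≤ log (log (log (log x))) ∧ 160 * log (log (log x)) ≤ log (log x) ∧
      log (log (log x)) ^ 2 ≤ c * log (log x) ^ 2 ∧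
      log (log (log (log x))) ≤ log (log (log x)) ∧
      10000 * exp K ≤ c0 * log (log x) ^ 2 ∧ 2 * log 32 ≤ log (log x) ∧
      1 + log 64 ≤ log (log (log x)) ∧
      16 * log (log (log x)) * (4 * log (log (log x)) + 1) ≤ log (log x) := by
    filter_upwards [t1.eventually_ge_atTop 96, t4.eventually_ge_atTop 1, t2.eventually e1,
      t2.eventually e2, t3.eventually e4, t2.eventually e3,
      t2.eventually_ge_atTop (2 * log 32), t3.eventually_ge_atTop (1 + log 64),
      t2.eventually e5]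
      with x a1 a2 a3 a4 a5 a6 a7 a8 a9
    exact ⟨a1, a2, a3, a4, a5, a6, a7, a8, a9⟩
  obtain ⟨x0, hx0⟩ := Filter.eventually_atTop.mp main
  refine ⟨x0, fun x hx => ?_⟩
  obtain ⟨a1, a2, a3, a4, a5, a6, a7, a8, a9⟩ := hx0 x hx
  have h3pos : 0 < log (log (log x)) := by linarith
  have := ern_core C K c0 c (log x) (log (log x)) (log (log (log x)))
    (log (log (log (log x)))) hC (by positivity) hc0 hcpos hcle hcc hlarge
    (fun z H η hz h0 h1 => by
      have := H20R.smooth_le z H hz η h0 h1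
      exact this) a1 rfl rfl rfl a2 a3 a4 a5 (by nlinarith) a9 a6 a7 a8
  exact this

end Pool.Agent.Lib.H16L
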