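import Pool.Agent.Lib.H56G.ErMain

/-!
# Chunk GF1: the function in the exponent
-/

open Finset Real

namespace Pool.Agent.Lib.H16L

open Pool.Agent.Lib.H56G

/-- The function in the exponent: `k (loglog k)^2/((log k)^2 logloglog k)`. -/
noncomputable def gk (k : ℝ) : ℝ :=
  k * (log (log k)) ^ 2 / ((log k) ^ 2 * log (log (log k)))

/-- Chunk GF1. Elementary: `(log k)^2 logloglog k ≤ k^(1/10)` and `1 ≤ loglog k` for large `k`. -/
theorem gk_ge : ∃ k0 : ℝ, 16 ≤ k0 ∧ ∀ k : ℝ, k0 ≤ k → k ^ (9 / 10 : ℝ) ≤ gk k := by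
  have h1 : ∀ᶠ k : ℝ in Filter.atTop, 16 ≤ k := Filter.eventually_ge_atTop 16
  have h2 : ∀ᶠ k : ℝ in Filter.atTop, log k ^ (3 : ℝ) ≤ k ^ (1 / 10 : ℝ) := by
    have h := (isLittleO_log_rpow_rpow_atTop (s := 1 / 10) 3 (by norm_num)).bound
      (c := 1) one_pos
    filter_upwards [h, Filter.eventually_ge_atTop 1] with k hk hk1
    rw [one_mul, Real.norm_of_nonneg (rpow_nonneg (log_nonneg hk1) _),
      Real.norm_of_nonneg (rpow_nonneg (by linarith) _)] at hk
    exact hk
  have hll : Filter.Tendsto (fun k : ℝ => log (log k)) Filter.atTop Filter.atTop :=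
    tendsto_log_atTop.comp tendsto_log_atTop
  have hlll : Filter.Tendsto (fun k : ℝ => log (log (log k))) Filter.atTop Filter.atTop :=
    tendsto_log_atTop.comp hll
  have h3 : ∀ᶠ k : ℝ in Filter.atTop, 1 ≤ log (log k) := hll.eventually_ge_atTop 1
  have h4 : ∀ᶠ k : ℝ in Filter.atTop, 1 ≤ log (log (log k)) := hlll.eventually_ge_atTop 1
  have h5 : ∀ᶠ k : ℝ in Filter.atTop, 1 ≤ log k := tendsto_log_atTop.eventually_ge_atTop 1
  obtain ⟨k0, hk0⟩ := Filter.eventually_atTop.1 (h1.and (h2.and (h3.and (h4.and h5))))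
  refine ⟨max 16 k0, le_max_left _ _, fun k hk => ?_⟩
  obtain ⟨g1, g2, g3, g4, g5⟩ := hk0 k ((le_max_right _ _).trans hk)
  have hk : 0 < k := by linarith
  have g6 : log (log (log k)) ≤ log k := by
    have a1 := log_le_sub_one_of_pos (show 0 < log (log k) by linarith)
    have a2 := log_le_sub_one_of_pos (show 0 < log k by linarith)
    linarith
  have g7 : (log k) ^ 2 * log (log (log k)) ≤ k ^ (1 / 10 : ℝ) := by
    refine le_trans ?_ g2
    have : log k ^ (3 : ℝ) = log k ^ 2 * log k := by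
      rw [show (3 : ℝ) = ((3 : ℕ) : ℝ) by norm_num, rpow_natCast]
      ring
    rw [this]
    exact mul_le_mul_of_nonneg_left g6 (sq_nonneg _)
  have hden : 0 < (log k) ^ 2 * log (log (log k)) := by positivity
  unfold gk
  rw [le_div_iff₀ hden]
  calc k ^ (9 / 10 : ℝ) * ((log k) ^ 2 * log (log (log k)))
      ≤ k ^ (9 / 10 : ℝ) * k ^ (1 / 10 : ℝ) :=
        mul_le_mul_of_nonneg_left g7 (rpow_nonneg hk.le _)
    _ = k * 1 := by
        rw [← rpow_add hk]
        norm_num
    _ ≤ k * (log (log k)) ^ 2 := by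
        refine mul_le_mul_of_nonneg_left ?_ hk.le
        nlinarith

end Pool.Agent.Lib.H16L
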