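import Pool.Agent.Lib.H16L.Gf1

/-!
# Chunk GF2: the function in the exponent
-/

open Finset Real

namespace Pool.Agent.Lib.H16L

open Pool.Agent.Lib.H56G

/-- `k/(log k)^2` is increasing for `k ≥ e^2`. -/
theorem gf2_mono1 {h k : ℝ} (h0 : 0 < h) (h2 : 2 ≤ log h) (hk : h ≤ k) :
    h / (log h) ^ 2 ≤ k / (log k) ^ 2 := by
  have hk0 : 0 < k := h0.trans_le hk
  have hl : log h ≤ log k := log_le_log h0 hk
  have hv : 0 < log h := by linarith
  have hu : 0 < log k := by linarith
  rw [div_le_div_iff₀ (by positivity) (by positivity)]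
  have h3 : 2 * log (log k / log h) ≤ log k - log h := by
    have h4 := log_le_sub_one_of_pos (show 0 < log k / log h by positivity)
    have h5 : log k / log h - 1 = (log k - log h) / log h := by
      field_simp
    have h6 : (log k - log h) / log h ≤ (log k - log h) / 2 :=
      div_le_div_of_nonneg_left (by linarith) (by norm_num) h2
    linarith
  have h7 : (log k / log h) ^ 2 ≤ k / h := by
    have h8 : (log k / log h) ^ 2 = exp (2 * log (log k / log h)) := by
      rw [two_mul, exp_add, exp_log (by positivity)]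
      ring
    have h9 : k / h = exp (log k - log h) := by
      rw [exp_sub, exp_log hk0, exp_log h0]
    rw [h8, h9]
    exact exp_le_exp.2 h3
  rw [div_pow, div_le_div_iff₀ (by positivity) h0] at h7
  linarith

/-- `t^2/log t` is increasing for `t ≥ e`. -/
theorem gf2_mono2 {s t : ℝ} (hs : 0 < s) (h1 : 1 ≤ log s) (hst : s ≤ t) :
    s ^ 2 / log s ≤ t ^ 2 / log t := by
  have ht : 0 < t := hs.trans_le hst
  have hl : log s ≤ log t := log_le_log hs hst
  rw [div_le_div_iff₀ (by linarith) (by linarith)]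
  have h2 : log t ≤ (t / s) ^ 2 * log s := by
    have h3 : log t = log s + log (t / s) := by
      rw [log_div ht.ne' hs.ne']; ring
    have h4 := log_le_sub_one_of_pos (show 0 < t / s by positivity)
    have h5 : 1 ≤ t / s := (one_le_div hs).2 hst
    have h6 : (t / s - 1) * 1 ≤ (t / s - 1) * log s :=
      mul_le_mul_of_nonneg_left h1 (by linarith)
    have h7 : t / s * log s ≤ (t / s) ^ 2 * log s := by
      refine mul_le_mul_of_nonneg_right ?_ (by linarith)
      nlinarith
    nlinarith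
  have h8 : s ^ 2 * log t ≤ s ^ 2 * ((t / s) ^ 2 * log s) :=
    mul_le_mul_of_nonneg_left h2 (by positivity)
  have h9 : s ^ 2 * ((t / s) ^ 2 * log s) = t ^ 2 * log s := by
    field_simp
  linarith

theorem gf2_mono {h k : ℝ} (h0 : 0 < h) (h2 : 2 ≤ log h) (h1 : 1 ≤ log (log (log h)))
    (hk : h ≤ k) : gk h ≤ gk k := by
  have hk0 : 0 < k := h0.trans_le hk
  have hl : log h ≤ log k := log_le_log h0 hk
  have hll : log (log h) ≤ log (log k) := log_le_log (by linarith) hl
  have hs : 0 < log (log h) := by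
    by_contra hcon
    push Not at hcon
    rcases hcon.lt_or_eq with h3 | h3
    · have h4 : 0 ≤ log (log h) := log_nonneg (by linarith)
      linarith
    · rw [h3, log_zero] at h1
      linarith
  have ha := gf2_mono1 h0 h2 hk
  have hb := gf2_mono2 hs h1 hll
  have e : ∀ z : ℝ, gk z = z / (log z) ^ 2 * ((log (log z)) ^ 2 / log (log (log z))) := by
    intro z
    unfold gk
    rw [div_mul_div_comm]
  rw [e, e]
  refine mul_le_mul ha hb ?_ ?_
  · exact div_nonneg (sq_nonneg _) (by linarith)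
  · exact div_nonneg hk0.le (sq_nonneg _)

/-- Chunk GF2. `gk k = (k/(log k)^2) ((loglog k)^2/logloglog k)`, a product of two increasing
functions for large `k` (`u ↦ exp u/u^2` for `u ≥ 2`, `t ↦ t^2/log t` for `t ≥ 2`), so it is enough to
take `k = c ff x =: H` (if `c ff x ≤ k`). With `X = log x`, `X2 = log X`, .. and `x` large
`X ≤ H ≤ X^2`, so `log H ≤ 2 X2`, `loglog H ≥ X3`, `logloglog H ≤ 2 X4`, hence
`gk H ≥ c X (X2^2 X4/X3^2) (X3^2/(4 X2^2 · 2 X4)) = c X/8`, and `A = 32/c` works. -/
theorem gk_large : ∀ c : ℝ, 0 < c → ∃ A : ℝ, 0 < A ∧ ∃ x0 : ℝ, ∀ x : ℝ, x0 ≤ x →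
    ∀ k : ℝ, c * ff x ≤ k → 4 * log x ≤ A * gk k := by
  intro c hc
  have t1 : Filter.Tendsto (fun x : ℝ => log x) Filter.atTop Filter.atTop := tendsto_log_atTop
  have t2 : Filter.Tendsto (fun x : ℝ => log (log x)) Filter.atTop Filter.atTop :=
    tendsto_log_atTop.comp t1
  have t3 : Filter.Tendsto (fun x : ℝ => log (log (log x))) Filter.atTop Filter.atTop :=
    tendsto_log_atTop.comp t2
  have t4 : Filter.Tendsto (fun x : ℝ => log (log (log (log x)))) Filter.atTop Filter.atTop :=
    tendsto_log_atTop.comp t3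
  -- `X3^2 ≤ c X2^2`
  have f1 : ∀ᶠ y : ℝ in Filter.atTop, (log y) ^ 2 ≤ c * y ^ 2 := by
    have h := isLittleO_log_id_atTop.bound (c := √c) (Real.sqrt_pos.2 hc)
    filter_upwards [h, Filter.eventually_ge_atTop 1] with y hy hy1
    rw [Real.norm_of_nonneg (log_nonneg hy1), id, Real.norm_of_nonneg (by linarith)] at hy
    have h0 := log_nonneg hy1
    have h2 : (log y) ^ 2 ≤ (√c * y) ^ 2 := pow_le_pow_left₀ h0 hy 2
    rw [mul_pow, Real.sq_sqrt hc.le] at h2
    exact h2
  have f2 : ∀ᶠ y : ℝ in Filter.atTop, c * (log y) ^ 2 ≤ y := by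
    have h := (isLittleO_pow_log_id_atTop (n := 2)).bound (c := 1 / c) (by positivity)
    filter_upwards [h, Filter.eventually_ge_atTop 1] with y hy hy1
    rw [Real.norm_of_nonneg (sq_nonneg _), id, Real.norm_of_nonneg (by linarith)] at hy
    rw [one_div, ← div_eq_inv_mul, le_div_iff₀ hc] at hy
    linarith
  have g1 := t2.eventually f1
  have g2 := t1.eventually f2
  obtain ⟨x0, hx0⟩ := Filter.eventually_atTop.1 (g1.and (g2.and ((t4.eventually_ge_atTop 1).and
    ((t1.eventually_ge_atTop 8).and (t2.eventually_ge_atTop 2)))))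
  refine ⟨32 / c, by positivity, x0, fun x hx k hk => ?_⟩
  obtain ⟨h1, h2, h4, hX8, hX22⟩ := hx0 x hx
  set X := log x with hXd
  set X2 := log X with hX2d
  set X3 := log X2 with hX3d
  set X4 := log X3 with hX4d
  have hX : 0 < X := by linarith
  have hX2 : 0 < X2 := by linarith
  have hX3 : 1 ≤ X3 := by
    by_contra hcon
    push Not at hcon
    have : X4 ≤ 0 := by
      rw [hX4d]
      refine Real.log_nonpos ?_ hcon.le
      rw [hX3d]
      exact log_nonneg (by linarith)
    linarith
  have hX30 : 0 < X3 := by linarith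
  have hX43 : X4 ≤ X3 := by
    have := log_le_sub_one_of_pos hX30
    linarith
  have hX40 : 0 < X4 := by linarith
  have hff : c * ff x = c * (X * X2 ^ 2 * X4 / X3 ^ 2) := rfl
  set H := c * ff x with hHd
  have hHX : X ≤ H := by
    rw [hff, ← mul_div_assoc, le_div_iff₀ (by positivity)]
    calc X * X3 ^ 2 ≤ X * (c * X2 ^ 2) := mul_le_mul_of_nonneg_left h1 hX.le
      _ = c * (X * X2 ^ 2 * 1) := by ring
      _ ≤ c * (X * X2 ^ 2 * X4) := by gcongr
  have hH0 : 0 < H := hX.trans_le hHX
  have hHX2 : H ≤ X ^ 2 := by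
    rw [hff, ← mul_div_assoc, div_le_iff₀ (by positivity)]
    have h5 : X4 ≤ X3 ^ 2 := by nlinarith
    calc c * (X * X2 ^ 2 * X4) = X * (c * X2 ^ 2) * X4 := by ring
      _ ≤ X * X * X3 ^ 2 := by gcongr
      _ = X ^ 2 * X3 ^ 2 := by ring
  have hlH1 : X2 ≤ log H := log_le_log hX hHX
  have hlH2 : log H ≤ 2 * X2 := by
    have := log_le_log hH0 hHX2
    rw [log_pow] at this
    exact_mod_cast this
  have hlH0 : 0 < log H := hX2.trans_le hlH1
  have hllH1 : X3 ≤ log (log H) := log_le_log hX2 hlH1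
  have hllH0 : 0 < log (log H) := hX30.trans_le hllH1
  have hlllH1 : X4 ≤ log (log (log H)) := log_le_log hX30 hllH1
  have hlog2 : log 2 ≤ 1 := by
    have := log_two_lt_d9
    linarith
  have hllH2 : log (log H) ≤ 2 * X3 := by
    have h5 := log_le_log hlH0 hlH2
    rw [log_mul (by norm_num) hX2.ne'] at h5
    linarith
  have hlllH2 : log (log (log H)) ≤ 2 * X4 := by
    have h5 := log_le_log hllH0 hllH2
    rw [log_mul (by norm_num) hX30.ne'] at h5
    linarith
  have hlllH0 : 0 < log (log (log H)) := hX40.trans_le hlllH1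
  have hgH : c * X / 8 ≤ gk H := by
    unfold gk
    rw [div_le_div_iff₀ (by norm_num) (by positivity)]
    have h5 : H * X3 ^ 2 = c * (X * X2 ^ 2 * X4) := by
      rw [hff]
      field_simp
    calc c * X * ((log H) ^ 2 * log (log (log H)))
        ≤ c * X * ((2 * X2) ^ 2 * (2 * X4)) := by gcongr
      _ = 8 * (c * (X * X2 ^ 2 * X4)) := by ring
      _ = 8 * (H * X3 ^ 2) := by rw [h5]
      _ ≤ 8 * (H * (log (log H)) ^ 2) := by gcongr
      _ = H * (log (log H)) ^ 2 * 8 := by ring
  have hmono := gf2_mono hH0 (hX22.trans hlH1) (h4.trans hlllH1) hk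
  have h6 : c * X / 8 ≤ gk k := hgH.trans hmono
  calc 4 * X = 32 / c * (c * X / 8) := by field_simp; ring
    _ ≤ 32 / c * gk k := mul_le_mul_of_nonneg_left h6 (by positivity)

end Pool.Agent.Lib.H16L
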