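import Pool.Agent.Lib.H10.LPF.Scale

/-!
# Chunk SML: the k-th prime
-/

open Finset

namespace Pool.Agent.Lib.H16L

open Pool.Agent.Lib.Sieve (primesUpTo)

/-- Chunk SML. The `k`-th prime `p` (`Nat.nth Nat.Prime (k - 1)`; `π(p) = k`) is at most `C k^2`:
Mathlib's `Chebyshev.psi_ge` and `Chebyshev.psi_le_primeCounting_mul_log` give
`n log 2 - log (n + 1) ≤ π(n) log n`, so `c √n ≤ π(n)` for all `n ≥ 2`. -/
theorem kth_prime_le : ∃ C : ℝ, 0 < C ∧ ∀ k : ℕ, 1 ≤ k →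
    ∃ p : ℕ, p.Prime ∧ Nat.primeCounting p = k ∧ (p : ℝ) ≤ C * (k : ℝ) ^ 2 := by
  refine ⟨400, by norm_num, fun k hk => ?_⟩
  set p := Nat.nth Nat.Prime (k - 1) with hp
  have hpp : p.Prime := Nat.prime_nth_prime _
  have hpi : Nat.primeCounting p = k := by
    rw [Nat.primeCounting, Nat.primeCounting', Nat.count_succ, if_pos hpp]
    have h := Nat.primeCounting'_nth_eq (k - 1)
    rw [Nat.primeCounting'] at h
    rw [hp, h]
    omega
  refine ⟨p, hpp, hpi, ?_⟩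
  have h2 : (2 : ℝ) ≤ p := by exact_mod_cast hpp.two_le
  have h1 := Chebyshev.psi_ge p
  have h3 := Chebyshev.psi_le_primeCounting_mul_log p
  rw [hpi] at h3
  have hl2 : 0.6931471803 < Real.log 2 := Real.log_two_gt_d9
  have hlog : Real.log ((p : ℝ) + 1) ≤ 2 * Real.log 2 + ((p : ℝ) - 3) / 4 := by
    have e : (p : ℝ) + 1 = 2 ^ 2 * (((p : ℝ) + 1) / 4) := by ring
    rw [e, Real.log_mul (by norm_num) (by positivity), Real.log_pow]
    have := Real.log_le_sub_one_of_pos (show 0 < ((p : ℝ) + 1) / 4 by positivity)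
    push_cast
    linarith
  have hs : 0 < √(p : ℝ) := Real.sqrt_pos.2 (by linarith)
  have hsq : √(p : ℝ) * √(p : ℝ) = p := Real.mul_self_sqrt (by linarith)
  have hlp : Real.log p ≤ 2 * √(p : ℝ) := by
    have e : Real.log p = 2 * Real.log (√(p : ℝ)) := by
      rw [Real.log_sqrt (by linarith)]; ring
    have := Real.log_le_sub_one_of_pos hs
    linarith
  have hk0 : (0 : ℝ) ≤ k := by positivity
  have h4 : 0.1 * (p : ℝ) ≤ k * (2 * √(p : ℝ)) := by
    have h5 : (k : ℝ) * Real.log p ≤ k * (2 * √(p : ℝ)) := mul_le_mul_of_nonneg_left hlp hk0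
    have h6 : ((p : ℝ) - 2) * 0.6931471803 ≤ ((p : ℝ) - 2) * Real.log 2 :=
      mul_le_mul_of_nonneg_left hl2.le (by linarith)
    nlinarith
  have h7 : √(p : ℝ) ≤ 20 * k := by
    have : 0.1 * √(p : ℝ) * √(p : ℝ) ≤ (2 * k) * √(p : ℝ) := by
      calc 0.1 * √(p : ℝ) * √(p : ℝ) = 0.1 * (√(p : ℝ) * √(p : ℝ)) := by ring
        _ = 0.1 * p := by rw [hsq]
        _ ≤ _ := by linarith
    have := le_of_mul_le_mul_right this hs
    linarith
  calc (p : ℝ) = √(p : ℝ) * √(p : ℝ) := hsq.symm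
    _ ≤ (20 * k) * (20 * k) := mul_le_mul h7 h7 hs.le (by positivity)
    _ = 400 * (k : ℝ) ^ 2 := by ring

end Pool.Agent.Lib.H16L
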