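import Pool.Agent.Lib.H16L.Step
import Pool.Agent.Lib.H16L.Sml
import Pool.Agent.Lib.H16L.Gf2

/-!
# Chunk FINL
-/

open Finset Real

namespace Pool.Agent.Lib.H16L

open Pool.Agent.Lib.H56G

/-- `exp (k ^ (9/10))` dominates `C k ^ 2`. -/
private theorem finl_ev (C : ℝ) : ∃ k1 : ℝ, ∀ k : ℝ, k1 ≤ k →
    C * k ^ 2 ≤ exp (k ^ (9 / 10 : ℝ)) := by
  have h1 : Filter.Tendsto (fun k : ℝ => k ^ (9 / 10 : ℝ)) Filter.atTop Filter.atTop :=
    tendsto_rpow_atTop (by norm_num)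
  have h2 : ∀ᶠ u : ℝ in Filter.atTop, |C| * u ^ (3 : ℕ) ≤ exp u := by
    have h3 := (isLittleO_pow_exp_atTop (n := 3)).def (show (0 : ℝ) < 1 / (|C| + 1) by positivity)
    filter_upwards [h3, Filter.eventually_ge_atTop 0] with u hu hu0
    rw [Real.norm_of_nonneg (by positivity), Real.norm_of_nonneg (Real.exp_pos u).le,
      one_div_mul_eq_div, le_div_iff₀ (by positivity)] at hu
    have : 0 ≤ u ^ 3 := by positivity
    nlinarith [abs_nonneg C]
  obtain ⟨k1, hk1⟩ := Filter.eventually_atTop.mp (h1.eventually h2)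
  refine ⟨max k1 1, fun k hk => ?_⟩
  have hk1' : k1 ≤ k := (le_max_left _ _).trans hk
  have hk1'' : 1 ≤ k := (le_max_right _ _).trans hk
  have h4 := hk1 k hk1'
  refine le_trans ?_ h4
  have h5 : k ^ 2 ≤ (k ^ (9 / 10 : ℝ)) ^ (3 : ℕ) := by
    rw [← Real.rpow_natCast (k ^ (9 / 10 : ℝ)) 3, ← Real.rpow_mul (by linarith),
      ← Real.rpow_natCast k 2]
    apply Real.rpow_le_rpow_of_exponent_le hk1''
    norm_num
  calc C * k ^ 2 ≤ |C| * k ^ 2 := mul_le_mul_of_nonneg_right (le_abs_self C) (by positivity)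
    _ ≤ |C| * (k ^ (9 / 10 : ℝ)) ^ (3 : ℕ) := mul_le_mul_of_nonneg_left h5 (abs_nonneg C)

/-- Chunk FINL. Put `A' = A + 1` with the `A` of `gk_large`, `C' = C k0^2 + 4` with
`kth_prime_le`, `gk_ge`. For `k ≥ 1` four ranges (`L = log x`):
(i) `C k^2 ≤ ⌊(log L)^4⌋`: the `k`-th prime `p ≤ C k^2` divides `n + k`; `C k^2 ≤ C k0^2` if `k < k0`, and
`C k^2 ≤ exp (k^(9/10)) + C''` otherwise;
(ii) `k ≤ (L/16)^(3/5)`, not (i): `p ≤ L ≤ exp (k^(9/10)) ≤ exp (gk k)`, because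
`k ≥ ((log L)^4 - 1)/C)^(1/2)` and `k^(9/10) ≥ log L` for large `L`;
(iii) `(L/16)^(3/5) < k ≤ c ff x`: `p ≤ exp √L`, `√L ≤ k^(9/10)`;
(iv) `k > c ff x`: `n + k ≤ x + k ≤ exp (A' gk k)`, because `A gk k ≥ 4 log x`,
`gk k ≥ k^(9/10) ≥ log k`. -/
theorem main : ∃ A > (0 : ℝ), ∃ C > (0 : ℝ), {n : ℕ | 1 ≤ n ∧ ∀ k : ℕ, 1 ≤ k →
    (Nat.minFac (n + k) : ℝ) ≤ exp (A * gk k) + C}.Infinite := by
  obtain ⟨c, hc, x0, hstep⟩ := step
  obtain ⟨k0, hk0, hgk⟩ := gk_ge
  obtain ⟨A, hA, x1, hlarge⟩ := gk_large c hc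
  obtain ⟨C1, hC1, hprime⟩ := kth_prime_le
  obtain ⟨k1, hk1⟩ := finl_ev C1
  set k2 := max k0 k1 with hk2
  have hk20 : k0 ≤ k2 := le_max_left _ _
  have hk21 : k1 ≤ k2 := le_max_right _ _
  have hk2pos : 0 < k2 := by linarith
  refine ⟨A + 2, by linarith, C1 * k2 ^ 2 + 1, by positivity, ?_⟩
  apply Set.infinite_of_forall_exists_gt
  intro N
  -- the point x
  set X := max (max (16 * ((N : ℝ) + 2)) (16 * 4 ^ 25)) (max (16 * k0 ^ 2)
    (max (exp (max (C1 + 1) k0)) (max x0 x1))) with hX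
  have hXN : 16 * ((N : ℝ) + 2) ≤ X := (le_max_left _ _).trans (le_max_left _ _)
  have hX25 : 16 * 4 ^ 25 ≤ X := (le_max_right _ _).trans (le_max_left _ _)
  have hXk : 16 * k0 ^ 2 ≤ X := (le_max_left _ _).trans (le_max_right _ _)
  have hXe : exp (max (C1 + 1) k0) ≤ X :=
    ((le_max_left _ _).trans (le_max_right _ _)).trans (le_max_right _ _)
  have hXx0 : x0 ≤ X := (((le_max_left _ _).trans (le_max_right _ _)).trans
    (le_max_right _ _)).trans (le_max_right _ _)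
  have hXx1 : x1 ≤ X := (((le_max_right _ _).trans (le_max_right _ _)).trans
    (le_max_right _ _)).trans (le_max_right _ _)
  have hX0 : 0 < X := lt_of_lt_of_le (by positivity) hX25
  have hXexp : X ≤ exp X := by linarith [Real.add_one_le_exp X]
  obtain ⟨n, hn1, hn2, hn3, hn4, hn5⟩ := hstep (exp X) (hXx0.trans hXexp)
  have hlg := hlarge (exp X) (hXx1.trans hXexp)
  rw [Real.log_exp] at hn1 hn3 hn4 hn5 hlg
  have hL2 : max (C1 + 1) k0 ≤ log X := by
    rw [Real.le_log_iff_exp_le hX0]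
    exact hXe
  have hL2a : C1 + 1 ≤ log X := (le_max_left _ _).trans hL2
  have hL2b : k0 ≤ log X := (le_max_right _ _).trans hL2
  have hnN : (N : ℝ) + 2 ≤ n := by linarith
  have hnN' : N + 2 ≤ n := by exact_mod_cast hnN
  refine ⟨n, ⟨by omega, fun k hk => ?_⟩, by omega⟩
  have hkr : (1 : ℝ) ≤ k := by exact_mod_cast hk
  have key : ∀ p : ℕ, p.Prime → p ∣ n + k → (Nat.minFac (n + k) : ℝ) ≤ p := by
    intro p hp hd
    exact_mod_cast Nat.minFac_le_of_dvd hp.two_le hd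
  have hgk0 : ∀ k : ℝ, k0 ≤ k → 0 ≤ gk k := fun k hk =>
    le_trans (Real.rpow_nonneg (by linarith) _) (hgk k hk)
  have hfin : ∀ k : ℝ, k0 ≤ k → exp (k ^ (9 / 10 : ℝ)) ≤ exp ((A + 2) * gk k)
      + (C1 * k2 ^ 2 + 1) := by
    intro k hk
    have h1 := hgk k hk
    have h2 := hgk0 k hk
    have h3 : exp (k ^ (9 / 10 : ℝ)) ≤ exp ((A + 2) * gk k) := by
      apply Real.exp_le_exp.mpr
      nlinarith
    have h4 : 0 < C1 * k2 ^ 2 + 1 := by positivity
    linarith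
  by_cases h1 : C1 * (k : ℝ) ^ 2 ≤ (⌊log X ^ 4⌋₊ : ℝ)
  · -- range (i)
    obtain ⟨p, hp, hpk, hple⟩ := hprime k hk
    have h2 : p ≤ ⌊log X ^ 4⌋₊ := by exact_mod_cast hple.trans h1
    have h3 := hn3 p hp h2
    rw [hpk] at h3
    refine (key p hp h3).trans (hple.trans ?_)
    by_cases h4 : (k : ℝ) ≤ k2
    · have h5 : C1 * (k : ℝ) ^ 2 ≤ C1 * k2 ^ 2 := by
        apply mul_le_mul_of_nonneg_left _ hC1.le
        exact pow_le_pow_left₀ (by linarith) h4 2
      have h6 := Real.exp_pos ((A + 2) * gk k)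
      linarith
    · push Not at h4
      exact (hk1 k (by linarith)).trans (hfin k (by linarith))
  push Not at h1
  have hk4 : log X ^ 3 < (k : ℝ) ^ 2 := by
    have h2 := Nat.lt_floor_add_one (log X ^ 4)
    have h3 : C1 * log X ^ 3 < C1 * (k : ℝ) ^ 2 := by
      have h4 : (1 : ℝ) ≤ log X ^ 3 := one_le_pow₀ (by linarith)
      have h5 : log X ^ 4 = log X * log X ^ 3 := by ring
      have h6 : (C1 + 1) * log X ^ 3 ≤ log X * log X ^ 3 :=
        mul_le_mul_of_nonneg_right hL2a (by linarith)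
      nlinarith
    exact lt_of_mul_lt_mul_left h3 hC1.le
  have hkk0 : k0 ≤ (k : ℝ) := by
    have h2 : k0 ^ 2 ≤ (k : ℝ) ^ 2 := by
      have h3 : k0 ^ 2 ≤ log X ^ 2 := pow_le_pow_left₀ (by linarith) hL2b 2
      have h4 : log X ^ 2 ≤ log X ^ 3 := pow_le_pow_right₀ (by linarith) (by norm_num)
      linarith
    exact le_of_sq_le_sq h2 (by linarith)
  by_cases h2 : (k : ℝ) ≤ (X / 16) ^ (3 / 5 : ℝ)
  · -- range (ii)
    obtain ⟨p, hp, hple, hpd⟩ := hn4 k hk h2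
    refine (key p hp hpd).trans (hple.trans (le_trans ?_ (hfin k hkk0)))
    rw [← Real.log_le_iff_le_exp hX0]
    have hlog1 : 1 ≤ log X := by linarith
    calc log X = (log X) ^ (1 : ℝ) := (Real.rpow_one _).symm
      _ ≤ (log X) ^ (27 / 20 : ℝ) :=
        Real.rpow_le_rpow_of_exponent_le hlog1 (by norm_num)
      _ = ((log X) ^ (3 : ℕ)) ^ (9 / 20 : ℝ) := by
        rw [← Real.rpow_natCast (log X) 3, ← Real.rpow_mul (by linarith)]
        norm_num
      _ ≤ ((k : ℝ) ^ (2 : ℕ)) ^ (9 / 20 : ℝ) :=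
        Real.rpow_le_rpow (by positivity) hk4.le (by norm_num)
      _ = (k : ℝ) ^ (9 / 10 : ℝ) := by
        rw [← Real.rpow_natCast (k : ℝ) 2, ← Real.rpow_mul (by linarith)]
        norm_num
  push Not at h2
  by_cases h3 : (k : ℝ) ≤ c * ff (exp X)
  · -- range (iii)
    obtain ⟨p, hp, hple, hpd⟩ := hn5 k hk h3
    refine (key p hp hpd).trans (hple.trans (le_trans ?_ (hfin k hkk0)))
    apply Real.exp_le_exp.mpr
    set Y := X / 16 with hY
    have hY25 : (4 : ℝ) ^ 25 ≤ Y := by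
      rw [hY]
      linarith
    have hY0 : 0 < Y := by linarith [show (0 : ℝ) < 4 ^ 25 by positivity]
    have hXY : X = 16 * Y := by
      rw [hY]
      ring
    have h4 : √X = 4 * √Y := by
      rw [hXY, Real.sqrt_mul (by norm_num)]
      congr 1
      rw [show (16 : ℝ) = 4 ^ 2 by norm_num, Real.sqrt_sq (by norm_num)]
    have h5 : (4 : ℝ) ≤ Y ^ (1 / 25 : ℝ) := by
      calc (4 : ℝ) = ((4 : ℝ) ^ (25 : ℕ)) ^ (1 / 25 : ℝ) := by
            rw [← Real.rpow_natCast (4 : ℝ) 25, ← Real.rpow_mul (by norm_num)]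
            norm_num
        _ ≤ Y ^ (1 / 25 : ℝ) := Real.rpow_le_rpow (by positivity) hY25 (by norm_num)
    rw [h4, Real.sqrt_eq_rpow]
    have hYle : Y ^ (27 / 50 : ℝ) ≤ (k : ℝ) ^ (9 / 10 : ℝ) := by
      have h6 := Real.rpow_le_rpow (Real.rpow_nonneg hY0.le _) h2.le
        (show (0 : ℝ) ≤ 9 / 10 by norm_num)
      rw [← Real.rpow_mul hY0.le] at h6
      norm_num at h6
      exact h6
    refine le_trans ?_ hYle
    have h7 : Y ^ (27 / 50 : ℝ) = Y ^ (1 / 25 : ℝ) * Y ^ (1 / 2 : ℝ) := by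
      rw [← Real.rpow_add hY0]
      norm_num
    rw [h7]
    exact mul_le_mul_of_nonneg_right h5 (Real.rpow_nonneg hY0.le _)
  · -- range (iv)
    push Not at h3
    have h4 := hlg k h3.le
    have h5 : (Nat.minFac (n + k) : ℝ) ≤ n + k := by
      exact_mod_cast Nat.minFac_le (by omega)
    refine h5.trans ?_
    have h6 := hgk0 k hkk0
    have h7 := hgk k hkk0
    have h8 : exp X ≤ exp (A * gk k) := Real.exp_le_exp.mpr (by linarith)
    have h9 : (k : ℝ) ≤ exp (2 * gk k) := by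
      rw [← Real.log_le_iff_le_exp (by linarith)]
      have h10 := Real.log_le_rpow_div (show (0 : ℝ) ≤ k by linarith)
        (show (0 : ℝ) < 9 / 10 by norm_num)
      have h11 : (k : ℝ) ^ (9 / 10 : ℝ) / (9 / 10) ≤ 2 * (k : ℝ) ^ (9 / 10 : ℝ) := by
        have : 0 ≤ (k : ℝ) ^ (9 / 10 : ℝ) := Real.rpow_nonneg (by linarith) _
        rw [div_le_iff₀ (by norm_num)]
        linarith
      linarith
    have h10 : exp (A * gk k) + exp (2 * gk k) ≤ exp ((A + 2) * gk k) + 1 := by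
      have h11 : exp ((A + 2) * gk k) = exp (A * gk k) * exp (2 * gk k) := by
        rw [← Real.exp_add]
        congr 1
        ring
      rw [h11]
      have h12 : 1 ≤ exp (A * gk k) := Real.one_le_exp (by positivity)
      have h13 : 1 ≤ exp (2 * gk k) := Real.one_le_exp (by positivity)
      nlinarith
    have h11 : 0 ≤ C1 * k2 ^ 2 := by positivity
    linarith

end Pool.Agent.Lib.H16L
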