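import Pool.Agent.Lib.H56G.ParNum

/-!
# Chunk PAR2: the parameters of the suppression theorem with small prime factors
-/

open Finset Real

namespace Pool.Agent.Lib.H16L

open Pool.Agent.Lib.H56G (NN WW)

/-- The bound for the primes which are used: `⌊exp √(log x)⌋`. -/
noncomputable def N2 (x : ℝ) : ℕ := ⌊exp (√(log x))⌋₊

/-- the numerical core -/
theorem par2_core (x L Q l2 : ℝ) (hx : 0 < x) (hL : log x = L) (hQ : √L = Q) (h2 : log L = l2)
    (C1 : 10 ^ 6 ≤ L) (C3 : 16400 * l2 ≤ exp (0.09 * l2))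
    (C4 : exp (2 - 0.017 * Q) ≤ (L ^ 4)⁻¹) (C7 : 72 * L < exp (0.1 * L)) (R : ℕ)
    (hR : (R : ℝ) ≤ 10 ^ (-7 : ℤ) * log x) (S : ℝ)
    (hS : log (log (N2 x) / (2000 * log (WW x))) / (2000 * log (WW x)) ≤ S) :
    2 ≤ WW x ∧ R ≤ WW x ∧ 1 < (N2 x : ℝ) ∧ (N2 x : ℝ) ≤ NN x ∧
    2000 * log (WW x) ≤ log (N2 x) ∧ 0 < S ∧
    1 ≤ log (N2 x) / (1000 * log (WW x)) ∧
    2 * log (NN x) / WW x ≤ 1 / 2 ∧
    exp (4 * (R + 1) * log (NN x) / WW x) ≤ 2 ∧
    ∃ ε τ : ℝ, ε ≤ 1 ∧
      ((N2 x : ℝ) / NN x) ^ (1 / log (N2 x)) * (1 + 2 / (S * log (N2 x))) ^ R ≤ ε ∧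
      2 * log (NN x) * ((2 / S + 1) / WW x) ≤ τ ∧
      18 * ((R : ℝ) + 1) * ((NN x : ℝ) * N2 x) ^ 8
        < (⌊x ^ (1 / 2 : ℝ)⌋₊ : ℝ) * ((2 - exp (4 * (R + 1) * log (NN x) / WW x)) * (1 - ε) -
          R * (exp (4 * (R + 1) * log (NN x) / WW x) / (log (N2 x) / (1000 * log (WW x)))) *
            (τ ^ 2 + ε)) := by
  have hL0 : 0 < L := by linarith
  have hQQ : Q * Q = L := by rw [← hQ]; exact Real.mul_self_sqrt hL0.le
  have hQ0 : 0 ≤ Q := by rw [← hQ]; exact Real.sqrt_nonneg _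
  have hQ1000 : 1000 ≤ Q := by
    rw [← hQ]
    apply Real.le_sqrt_of_sq_le
    norm_num
    norm_num at C1
    exact C1
  have hQpos : 0 < Q := by linarith
  have hl2pos : 0 < l2 := by
    rw [← h2]
    exact log_pos (by linarith)
  have hl21 : 1 ≤ l2 := by
    rw [← h2, Real.le_log_iff_exp_le hL0]
    have := Real.exp_one_lt_d9
    linarith
  have hexp2 : exp l2 = L := by rw [← h2, exp_log hL0]
  have hQe : Q = exp (l2 / 2) := by
    have h5 : exp (l2 / 2) * exp (l2 / 2) = L := by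
      rw [← exp_add, add_halves, hexp2]
    exact (mul_self_inj hQ0 (exp_pos _).le).1 (hQQ.trans h5.symm)
  -- x = exp L
  have hxe : ∀ y : ℝ, x ^ y = exp (L * y) := fun y => by rw [rpow_def_of_pos hx, hL]
  -- WW
  have hW1 : L ^ 4 ≤ (WW x : ℝ) := by unfold WW; rw [hL]; exact Nat.le_ceil _
  have hW2 : (WW x : ℝ) ≤ 2 * L ^ 4 := by
    unfold WW
    rw [hL]
    have h := (Nat.ceil_lt_add_one (show 0 ≤ L ^ 4 by positivity)).le
    have h1 : (1 : ℝ) ≤ L ^ 4 := one_le_pow₀ (by linarith)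
    linarith
  have hL4 : (10 ^ 6 : ℝ) ≤ L ^ 4 := by
    have : L ≤ L ^ 4 := le_self_pow₀ (by linarith) (by norm_num)
    linarith
  have hWpos : (0 : ℝ) < WW x := by linarith
  have hlogW1 : 4 * l2 ≤ log (WW x) := by
    rw [← h2, ← log_rpow hL0 4]
    apply log_le_log (by positivity)
    have : L ^ (4 : ℝ) = L ^ 4 := by exact_mod_cast rpow_natCast L 4
    rw [this]; exact hW1
  have hl2big : 10 ≤ l2 := by
    rw [← h2, Real.le_log_iff_exp_le hL0]
    have h5 : exp 10 = (exp 1) ^ 10 := by rw [← exp_nat_mul]; norm_num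
    rw [h5]
    have h6 := Real.exp_one_lt_d9
    calc (exp 1) ^ 10 ≤ 3 ^ 10 := pow_le_pow_left₀ (exp_pos _).le (by linarith) _
      _ ≤ 10 ^ 6 := by norm_num
      _ ≤ L := C1
  have hlogW2 : log (WW x) ≤ 4.1 * l2 := by
    have h5 : log (WW x) ≤ log (2 * L ^ 4) := log_le_log hWpos hW2
    rw [log_mul (by norm_num) (by positivity), log_pow, h2] at h5
    have h6 : log 2 ≤ 1 := by
      have := log_two_lt_d9; linarith
    push_cast at h5
    linarith
  have hlogWpos : 0 < log (WW x) := by linarith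
  -- N2
  have heQ : (2 : ℝ) ≤ exp Q := by
    have := add_one_le_exp Q
    linarith
  have hM1 : (N2 x : ℝ) ≤ exp Q := by
    unfold N2; rw [hL, hQ]; exact Nat.floor_le (exp_pos _).le
  have hM2 : exp Q - 1 < (N2 x : ℝ) := by
    unfold N2; rw [hL, hQ]; exact Nat.sub_one_lt_floor _
  have hM3 : exp Q / 2 ≤ (N2 x : ℝ) := by linarith
  have hM1' : (1 : ℝ) < N2 x := by
    have := add_one_le_exp Q
    linarith
  have hM0 : (0 : ℝ) < N2 x := by linarith
  have hlM1 : log (N2 x) ≤ Q := by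
    have := log_le_log hM0 hM1
    rwa [log_exp] at this
  have hlM2 : Q - 1 ≤ log (N2 x) := by
    have h5 := log_le_log (by positivity) hM3
    rw [log_div (exp_pos _).ne' (by norm_num), log_exp] at h5
    have h6 : log 2 ≤ 1 := by
      have := log_two_lt_d9; linarith
    linarith
  have hlM3 : Q / 2 ≤ log (N2 x) := by linarith
  have hlMpos : 0 < log (N2 x) := by linarith
  -- NN
  have hX40 : x ^ (1 / 40 : ℝ) = exp (L / 40) := by rw [hxe]; congr 1; ring
  have hN1 : (NN x : ℝ) ≤ exp (L / 40) := by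
    unfold NN; rw [hX40]; exact Nat.floor_le (exp_pos _).le
  have hN2 : exp (L / 40) - 1 < (NN x : ℝ) := by
    unfold NN; rw [hX40]; exact Nat.sub_one_lt_floor _
  have he40 : (2 : ℝ) ≤ exp (L / 40) := by
    have := add_one_le_exp (L / 40)
    have : (10 ^ 6 : ℝ) / 40 ≤ L / 40 := by linarith
    norm_num at this ⊢
    linarith
  have hN3 : exp (L / 40) / 2 ≤ (NN x : ℝ) := by linarith
  have hN0 : (0 : ℝ) < NN x := by linarith
  have hN1' : (1 : ℝ) ≤ NN x := by linarith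
  have hlN1 : log (NN x) ≤ L / 40 := by
    have := log_le_log hN0 hN1
    rwa [log_exp] at this
  have hlN2 : L / 40 - 1 ≤ log (NN x) := by
    have h5 := log_le_log (by positivity) hN3
    rw [log_div (exp_pos _).ne' (by norm_num), log_exp] at h5
    have h6 : log 2 ≤ 1 := by
      have := log_two_lt_d9; linarith
    linarith
  have hlNpos : 0 < log (NN x) := by linarith
  have hMN : (N2 x : ℝ) ≤ NN x := by
    have h5 : exp Q ≤ exp (L / 40) / 2 := by
      have h6 : 1000 * Q ≤ Q * Q := mul_le_mul_of_nonneg_right hQ1000 hQ0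
      have h7 : exp Q ≤ exp (L / 40 - 1) := exp_le_exp.mpr (by linarith)
      have h8 : exp (L / 40 - 1) ≤ exp (L / 40) / 2 := by
        rw [exp_sub]
        have := exp_one_gt_d9
        gcongr
        linarith
      linarith
    linarith
  -- S lower bound
  have h09 : exp (0.09 * l2) ≤ exp (l2 / 2) := exp_le_exp.mpr (by linarith)
  have hA : 0.41 * l2 ≤ log (log (N2 x) / (2000 * log (WW x))) := by
    have hA0 : exp (0.41 * l2) ≤ log (N2 x) / (2000 * log (WW x)) := by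
      rw [le_div_iff₀ (by positivity)]
      have h5 : exp (0.41 * l2) * (2000 * log (WW x)) ≤ exp (0.41 * l2) * (2000 * (4.1 * l2)) := by
        gcongr
      refine h5.trans (le_trans ?_ hlM3)
      have h6 : exp (0.41 * l2) * (2000 * (4.1 * l2)) = exp (0.41 * l2) * (16400 * l2) / 2 := by
        ring
      rw [h6, hQe]
      have h7 : exp (0.41 * l2) * (16400 * l2) ≤ exp (0.41 * l2) * exp (0.09 * l2) := by
        gcongr
      have h8 : exp (0.41 * l2) * exp (0.09 * l2) = exp (l2 / 2) := by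
        rw [← exp_add]; congr 1; ring
      linarith
    have := log_le_log (exp_pos _) hA0
    rwa [log_exp] at this
  have hSlow : 1 / 20000 ≤ S := by
    refine le_trans ?_ hS
    rw [le_div_iff₀ (by positivity)]
    linarith
  have hSpos : 0 < S := by linarith
  have hR' : (R : ℝ) ≤ L / 10 ^ 7 := by
    rw [hL] at hR
    have : (10 : ℝ) ^ (-7 : ℤ) = 1 / 10 ^ 7 := by norm_num
    rw [this] at hR
    linarith
  have hR1 : (R : ℝ) + 1 ≤ L / 2 := by linarith
  have hR0 : (0 : ℝ) ≤ R := Nat.cast_nonneg R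
  -- exponent of K
  have hKe : 4 * ((R : ℝ) + 1) * log (NN x) / WW x ≤ 1 / 20 := by
    rw [div_le_iff₀ hWpos]
    have h5 : 4 * ((R : ℝ) + 1) * log (NN x) ≤ 4 * (L / 2) * (L / 40) := by gcongr
    have h6 : 1 / 20 * L ^ 4 ≤ 1 / 20 * (WW x : ℝ) := by linarith
    have h7 : L ^ 2 ≤ L ^ 4 := pow_le_pow_right₀ (by linarith) (by norm_num)
    have h8 : 4 * (L / 2) * (L / 40) = 1 / 20 * L ^ 2 := by ring
    linarith
  have hK1 : exp (4 * ((R : ℝ) + 1) * log (NN x) / WW x) ≤ 1.1 := by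
    refine le_trans (exp_le_exp.mpr hKe) ?_
    have h5 : exp (1 / 20 : ℝ) ≤ 1 / (1 - 1 / 20) := by
      have h6 := one_sub_le_exp_neg (1 / 20 : ℝ)
      rw [exp_neg] at h6
      rw [le_div_iff₀ (by norm_num)]
      have h7 : 0 < exp (1 / 20 : ℝ) := exp_pos _
      calc exp (1 / 20) * (1 - 1 / 20) ≤ exp (1 / 20) * (exp (1 / 20))⁻¹ := by gcongr
        _ = 1 := mul_inv_cancel₀ h7.ne'
    refine h5.trans (by norm_num)
  have hKpos : 0 < exp (4 * ((R : ℝ) + 1) * log (NN x) / WW x) := exp_pos _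
  set K := exp (4 * ((R : ℝ) + 1) * log (NN x) / WW x) with hKdef
  -- V0
  have hV1 : 1 ≤ log (N2 x) / (1000 * log (WW x)) := by
    rw [le_div_iff₀ (by positivity)]
    have h5 : 16400 * l2 ≤ Q := by rw [hQe]; linarith
    linarith
  set V0 := log (N2 x) / (1000 * log (WW x)) with hV0def
  have hV0pos : 0 < V0 := by linarith
  -- ε
  have hε : ((N2 x : ℝ) / NN x) ^ (1 / log (N2 x)) * (1 + 2 / (S * log (N2 x))) ^ R
      ≤ exp (2 - 0.017 * Q) := by
    have h5 : ((N2 x : ℝ) / NN x) ^ (1 / log (N2 x)) ≤ exp (2 - 0.025 * Q) := by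
      rw [rpow_def_of_pos (by positivity)]
      apply exp_le_exp.mpr
      rw [log_div hM0.ne' hN0.ne', mul_one_div, div_le_iff₀ hlMpos]
      have h6 : (0.025 * Q - 1) * log (N2 x) ≤ L / 40 - 1 := by
        calc (0.025 * Q - 1) * log (N2 x) ≤ (0.025 * Q - 1) * Q :=
              mul_le_mul_of_nonneg_left hlM1 (by linarith)
          _ = 0.025 * (Q * Q) - Q := by ring
          _ ≤ L / 40 - 1 := by rw [hQQ]; linarith
      have h7 : (2 - 0.025 * Q) * log (N2 x) = log (N2 x) - (0.025 * Q - 1) * log (N2 x) := by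
        ring
      linarith
    have h9 : (1 + 2 / (S * log (N2 x))) ^ R ≤ exp (0.008 * Q) := by
      have h10 : 1 + 2 / (S * log (N2 x)) ≤ exp (2 / (S * log (N2 x))) := by
        have := add_one_le_exp (2 / (S * log (N2 x)))
        linarith
      calc (1 + 2 / (S * log (N2 x))) ^ R ≤ (exp (2 / (S * log (N2 x)))) ^ R := by gcongr
        _ = exp (R * (2 / (S * log (N2 x)))) := by rw [← exp_nat_mul]
        _ ≤ exp (0.008 * Q) := by
          apply exp_le_exp.mpr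
          rw [mul_div_assoc', div_le_iff₀ (by positivity)]
          have h11 : 0.008 * Q * (1 / 20000 * (Q / 2)) ≤ 0.008 * Q * (S * log (N2 x)) := by
            gcongr
          refine le_trans ?_ h11
          have h12 : 0.008 * Q * (1 / 20000 * (Q / 2)) = 2 * (L / 10 ^ 7) := by
            rw [← hQQ]
            ring
          rw [h12]
          linarith
    calc ((N2 x : ℝ) / NN x) ^ (1 / log (N2 x)) * (1 + 2 / (S * log (N2 x))) ^ R
        ≤ exp (2 - 0.025 * Q) * exp (0.008 * Q) := by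
          apply mul_le_mul h5 h9 _ (exp_pos _).le
          positivity
      _ = exp (2 - 0.017 * Q) := by rw [← exp_add]; congr 1; ring
  -- τ
  have hτ : 2 * log (NN x) * ((2 / S + 1) / WW x) ≤ (L ^ 2)⁻¹ := by
    have h5 : 2 / S + 1 ≤ 40001 := by
      have : 2 / S ≤ 40000 := by
        rw [div_le_iff₀ hSpos]; linarith
      linarith
    calc 2 * log (NN x) * ((2 / S + 1) / WW x) ≤ 2 * (L / 40) * (40001 / L ^ 4) := by
          gcongr
      _ ≤ (L ^ 2)⁻¹ := by
          rw [← one_div, le_div_iff₀ (by positivity)]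
          have : 2 * (L / 40) * (40001 / L ^ 4) * L ^ 2 = (40001 / 20) / L := by
            field_simp
            ring
          rw [this, div_le_one hL0]
          linarith
  have hL4inv : (L ^ 4)⁻¹ ≤ 0.001 * L⁻¹ := by
    rw [← one_div, div_le_iff₀ (by positivity)]
    have : 0.001 * L⁻¹ * L ^ 4 = 0.001 * L ^ 3 := by
      field_simp
    rw [this]
    have h5 : L ≤ L ^ 3 := le_self_pow₀ (by linarith) (by norm_num)
    linarith
  have hLinv : L⁻¹ ≤ 1 := inv_le_one_of_one_le₀ (by linarith)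
  have hLinv0 : 0 < L⁻¹ := by positivity
  have hεs : exp (2 - 0.017 * Q) ≤ 0.001 * L⁻¹ := C4.trans hL4inv
  have hε0 : 0 < exp (2 - 0.017 * Q) := exp_pos _
  refine ⟨?_, ?_, hM1', hMN, ?_, hSpos, hV1, ?_, ?_, exp (2 - 0.017 * Q), (L ^ 2)⁻¹,
    ?_, hε, hτ, ?_⟩
  · have : (2 : ℝ) ≤ WW x := by linarith
    exact_mod_cast this
  · have : (R : ℝ) ≤ WW x := by
      have h1 : L ≤ L ^ 4 := le_self_pow₀ (by linarith) (by norm_num)
      linarith
    exact_mod_cast this
  · have h5 : 16400 * l2 ≤ Q := by rw [hQe]; linarith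
    linarith
  · rw [div_le_iff₀ hWpos]
    have h1 : L ≤ L ^ 4 := le_self_pow₀ (by linarith) (by norm_num)
    linarith
  · linarith
  · linarith
  · -- main inequality
    have hY : exp (L / 2) / 2 ≤ (⌊x ^ (1 / 2 : ℝ)⌋₊ : ℝ) := by
      have h5 : x ^ (1 / 2 : ℝ) = exp (L / 2) := by rw [hxe]; congr 1; ring
      rw [h5]
      have h6 := Nat.sub_one_lt_floor (exp (L / 2))
      have h7 : (2 : ℝ) ≤ exp (L / 2) := by
        have := add_one_le_exp (L / 2)
        linarith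
      linarith
    have hτs : ((L ^ 2)⁻¹) ^ 2 ≤ 0.001 * L⁻¹ := by
      rw [← inv_pow, ← pow_mul, inv_pow]
      exact hL4inv
    have hsecond : (R : ℝ) * (K / V0) * (((L ^ 2)⁻¹) ^ 2 + exp (2 - 0.017 * Q)) ≤ 0.1 := by
      have h5 : K / V0 ≤ 1.1 := by
        rw [div_le_iff₀ hV0pos]
        linarith
      have h6 : ((L ^ 2)⁻¹) ^ 2 + exp (2 - 0.017 * Q) ≤ 0.002 * L⁻¹ := by linarith
      calc (R : ℝ) * (K / V0) * (((L ^ 2)⁻¹) ^ 2 + exp (2 - 0.017 * Q))
          ≤ (L / 10 ^ 7) * 1.1 * (0.002 * L⁻¹) := by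
            gcongr
        _ = 1.1 * 0.002 / 10 ^ 7 := by
            field_simp
        _ ≤ 0.1 := by norm_num
    have hbr : 1 / 2 ≤ (2 - K) * (1 - exp (2 - 0.017 * Q)) -
        R * (K / V0) * (((L ^ 2)⁻¹) ^ 2 + exp (2 - 0.017 * Q)) := by
      have h5 : 0.9 * 0.99 ≤ (2 - K) * (1 - exp (2 - 0.017 * Q)) := by
        apply mul_le_mul <;> linarith
      linarith
    have hNN : ((NN x : ℝ) * N2 x) ^ 8 ≤ exp (0.4 * L) := by
      have h5 : ((NN x : ℝ) * N2 x) ^ 8 ≤ (exp (L / 40) * exp (L / 40)) ^ 8 := by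
        have h6 : (N2 x : ℝ) ≤ exp (L / 40) := hMN.trans hN1
        gcongr
      refine h5.trans (le_of_eq ?_)
      rw [← exp_add, ← exp_nat_mul]
      congr 1
      push_cast
      ring
    calc 18 * ((R : ℝ) + 1) * ((NN x : ℝ) * N2 x) ^ 8
        ≤ 18 * (L / 2) * exp (0.4 * L) := by gcongr
      _ < exp (0.1 * L) * exp (0.4 * L) * (1 / 4) := by
          have h5 : 0 < exp (0.4 * L) := exp_pos _
          have h6 : 18 * (L / 2) < exp (0.1 * L) * (1 / 4) := by linarith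
          have h7 := mul_lt_mul_of_pos_right h6 h5
          have h8 : exp (0.1 * L) * (1 / 4) * exp (0.4 * L)
              = exp (0.1 * L) * exp (0.4 * L) * (1 / 4) := by ring
          linarith
      _ = exp (L / 2) / 2 * (1 / 2) := by
          rw [← exp_add]
          have : 0.1 * L + 0.4 * L = L / 2 := by ring
          rw [this]; ring
      _ ≤ _ := by
          apply mul_le_mul hY hbr (by norm_num)
          exact le_trans (by positivity) hY

/-- Numerical conditions of `H56G.exists_t` for large `x`, with `z = D2 = N2 x`, `D1 = NN x`,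
`V0 = log (N2 x)/(1000 log W)`, `K = exp (4 (R+1) log (NN x)/W)` and a tiny `ε`.
Copy the proof of `H56G.par_num` (`parnum_core`), `L = log x`, `l2 = log L`:
`√L - 1 ≤ log (N2 x) ≤ √L`, `4 l2 ≤ log W ≤ 4.1 l2`, so `log (N2 x)/(2000 log W) ≥ exp (0.41 l2)` and
`S ≥ 0.41/8200 = 1/20000`. Take `c0 = 10^-7`. Then
`(N2/NN)^(1/log N2) = exp (1 - log NN/log N2) ≤ exp (1 - (L/40 - 1)/√L) ≤ exp (2 - √L/40)`,
`(1 + 2/(S log N2))^R ≤ exp (2 R/(S log N2)) ≤ exp (2 · 10^-7 L · 20000 · 2/√L) ≤ exp (√L/100)`,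
so `ε = exp (2 - 3 √L/200) ≤ L^-5` works (for `L ≥ L0`; use `exp_log` and `log y ≤ δ y`),
`τ = 2 log NN (2/S + 1)/W ≤ L^-2`. `R/V0 ≤ 10^-7 L · 4100 l2 · 2/√L ≤ L` and
`L (L^-4 + L^-5) ≤ 0.1`; `(NN N2)^8 ≤ (NN^2)^8 ≤ exp (0.4 L)`. -/
theorem par_num2 : ∃ c0 : ℝ, 0 < c0 ∧ ∃ x0 : ℝ, ∀ x : ℝ, x0 ≤ x → ∀ R : ℕ,
    (R : ℝ) ≤ c0 * log x → ∀ S : ℝ,
    log (log (N2 x) / (2000 * log (WW x))) / (2000 * log (WW x)) ≤ S →
    2 ≤ WW x ∧ R ≤ WW x ∧ 1 < (N2 x : ℝ) ∧ (N2 x : ℝ) ≤ NN x ∧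
    2000 * log (WW x) ≤ log (N2 x) ∧ 0 < S ∧
    1 ≤ log (N2 x) / (1000 * log (WW x)) ∧
    2 * log (NN x) / WW x ≤ 1 / 2 ∧
    exp (4 * (R + 1) * log (NN x) / WW x) ≤ 2 ∧
    ∃ ε τ : ℝ, ε ≤ 1 ∧
      ((N2 x : ℝ) / NN x) ^ (1 / log (N2 x)) * (1 + 2 / (S * log (N2 x))) ^ R ≤ ε ∧
      2 * log (NN x) * ((2 / S + 1) / WW x) ≤ τ ∧
      18 * ((R : ℝ) + 1) * ((NN x : ℝ) * N2 x) ^ 8
        < (⌊x ^ (1 / 2 : ℝ)⌋₊ : ℝ) * ((2 - exp (4 * (R + 1) * log (NN x) / WW x)) * (1 - ε) -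
          R * (exp (4 * (R + 1) * log (NN x) / WW x) / (log (N2 x) / (1000 * log (WW x)))) *
            (τ ^ 2 + ε)) := by
  refine ⟨10 ^ (-7 : ℤ), by positivity, ?_⟩
  have T1 : Filter.Tendsto log Filter.atTop Filter.atTop := tendsto_log_atTop
  have T2 : Filter.Tendsto (fun x => log (log x)) Filter.atTop Filter.atTop := T1.comp T1
  have E1 : ∀ᶠ x : ℝ in Filter.atTop, (10 : ℝ) ^ 6 ≤ log x := T1.eventually_ge_atTop _
  have E3 : ∀ᶠ x : ℝ in Filter.atTop, 16400 * log (log x) ≤ exp (0.09 * log (log x)) := by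
    have h : ∀ᶠ y : ℝ in Filter.atTop, 16400 * y ≤ exp (0.09 * y) := by
      filter_upwards [Filter.eventually_ge_atTop (5000000 : ℝ)] with y hy
      have h5 := quadratic_le_exp_of_nonneg (show 0 ≤ 0.09 * y by linarith)
      nlinarith
    exact T2.eventually h
  have E4 : ∀ᶠ x : ℝ in Filter.atTop,
      exp (2 - 0.017 * √(log x)) ≤ ((log x) ^ 4)⁻¹ := by
    have h : ∀ᶠ y : ℝ in Filter.atTop, exp (2 - 0.017 * √y) ≤ (y ^ 4)⁻¹ := by
      have h0 : Filter.Tendsto (fun y : ℝ => 0.017 * √y) Filter.atTop Filter.atTop :=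
        Filter.Tendsto.const_mul_atTop (by norm_num) Real.tendsto_sqrt_atTop
      have h1 := (tendsto_pow_mul_exp_neg_atTop_nhds_zero 8).comp h0
      have h2 := h1.eventually (gt_mem_nhds (show (0 : ℝ) < 0.017 ^ 8 * exp (-2) by positivity))
      filter_upwards [h2, Filter.eventually_ge_atTop 1] with y hy hy1
      simp only [Function.comp] at hy
      have hs : √y * √y = y := Real.mul_self_sqrt (by linarith)
      have h3 : (0.017 * √y) ^ 8 = 0.017 ^ 8 * y ^ 4 := by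
        rw [mul_pow]
        congr 1
        calc √y ^ 8 = (√y * √y) ^ 4 := by ring
          _ = y ^ 4 := by rw [hs]
      rw [h3] at hy
      have h4 : exp (2 - 0.017 * √y) = exp (-(0.017 * √y)) * exp 2 := by
        rw [← exp_add]; congr 1; ring
      have h5 : exp (-2) * exp 2 = 1 := by rw [← exp_add]; simp
      have hy4 : 0 < y ^ 4 := by positivity
      rw [h4, ← one_div, le_div_iff₀ hy4]
      have h6 : 0 < (0.017 : ℝ) ^ 8 := by positivity
      have h7 : (0.017 : ℝ) ^ 8 * (y ^ 4 * exp (-(0.017 * √y))) < 0.017 ^ 8 * exp (-2) := by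
        calc (0.017 : ℝ) ^ 8 * (y ^ 4 * exp (-(0.017 * √y)))
            = 0.017 ^ 8 * y ^ 4 * exp (-(0.017 * √y)) := by ring
          _ < _ := hy
      have h8 := lt_of_mul_lt_mul_left h7 h6.le
      calc exp (-(0.017 * √y)) * exp 2 * y ^ 4
          = (y ^ 4 * exp (-(0.017 * √y))) * exp 2 := by ring
        _ ≤ exp (-2) * exp 2 := mul_le_mul_of_nonneg_right h8.le (exp_pos _).le
        _ = 1 := h5
    exact T1.eventually h
  have E7 : ∀ᶠ x : ℝ in Filter.atTop, 72 * log x < exp (0.1 * log x) := by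
    have h : ∀ᶠ y : ℝ in Filter.atTop, 72 * y < exp (0.1 * y) := by
      filter_upwards [Filter.eventually_ge_atTop (20000 : ℝ)] with y hy
      have h5 := quadratic_le_exp_of_nonneg (show 0 ≤ 0.1 * y by linarith)
      nlinarith
    exact T1.eventually h
  have hall := ((E1.and E3).and E4).and (E7.and (Filter.eventually_gt_atTop 0))
  obtain ⟨x0, hx0⟩ := Filter.eventually_atTop.mp hall
  refine ⟨x0, fun x hx R hR S hS => ?_⟩
  obtain ⟨⟨⟨h1, h3⟩, h4⟩, h7, h8⟩ := hx0 x hx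
  exact par2_core x (log x) (√(log x)) (log (log x)) h8 rfl rfl rfl h1 h3 h4 h7 R hR S hS

end Pool.Agent.Lib.H16L
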