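import Pool.Agent.Lib.H10.LPF.Scale

/-!
# Chunk PRD: a product over primes
-/

open Finset

namespace Pool.Agent.Lib.H16L

open Pool.Agent.Lib.Sieve (primesUpTo)

/-- Chunk PRD. `H10.LPF.prod_greedy_le` for `(K, z]` and `Sieve.prod_one_sub_inv_le` for `w`. -/
theorem prod_le (w K z : ℕ) (hw : 2 ≤ w) (hwK : w ≤ K) (hKz : K ≤ z) :
    ∏ p ∈ (primesUpTo z).filter (fun p => p ≤ w ∨ K < p), (1 - 1 / (p : ℝ))
      ≤ 500 * (Real.log K / Real.log w) / Real.log z := by
  have hsplit : ∏ p ∈ (primesUpTo z).filter (fun p => p ≤ w ∨ K < p), (1 - 1 / (p : ℝ)) =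
      (∏ p ∈ primesUpTo w, (1 - 1 / (p : ℝ))) *
        ∏ p ∈ (primesUpTo z).filter (fun p => K < p), (1 - 1 / (p : ℝ)) := by
    rw [← Finset.prod_union]
    · apply Finset.prod_congr _ fun _ _ => rfl
      ext p
      simp only [mem_filter, mem_union, Pool.Agent.Lib.Sieve.mem_primesUpTo]
      constructor
      · rintro ⟨⟨a, b⟩, c | c⟩
        · exact Or.inl ⟨a, c⟩
        · exact Or.inr ⟨⟨a, b⟩, c⟩
      · rintro (⟨a, b⟩ | ⟨⟨a, b⟩, c⟩)
        · exact ⟨⟨a, by omega⟩, Or.inl b⟩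
        · exact ⟨⟨a, b⟩, Or.inr c⟩
    · rw [Finset.disjoint_left]
      intro p hp hp'
      rw [Pool.Agent.Lib.Sieve.mem_primesUpTo] at hp
      rw [mem_filter] at hp'
      omega
  have h1 := Pool.Agent.Lib.Sieve.prod_one_sub_inv_le w hw
  have h2 := Pool.Agent.Lib.H10.LPF.prod_greedy_le K z (hw.trans hwK) hKz
  have h0 : 0 ≤ ∏ p ∈ (primesUpTo z).filter (fun p => K < p), (1 - 1 / (p : ℝ)) := by
    apply Finset.prod_nonneg
    intro p hp
    rw [mem_filter, Pool.Agent.Lib.Sieve.mem_primesUpTo] at hp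
    have : (1 : ℝ) < p := by exact_mod_cast hp.1.1.one_lt
    have : 1 / (p : ℝ) ≤ 1 := by
      rw [div_le_one (by linarith)]
      linarith
    linarith
  have hw' : (1 : ℝ) < w := by exact_mod_cast (by omega : 1 < w)
  have hlw : 0 < Real.log w := Real.log_pos hw'
  rw [hsplit]
  calc (∏ p ∈ primesUpTo w, (1 - 1 / (p : ℝ))) *
        ∏ p ∈ (primesUpTo z).filter (fun p => K < p), (1 - 1 / (p : ℝ))
      ≤ (1 / Real.log w) * (1 / Real.log z * (500 * Real.log K)) :=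
        mul_le_mul h1 h2 h0 (by positivity)
    _ = 500 * (Real.log K / Real.log w) / Real.log z := by ring

end Pool.Agent.Lib.H16L
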