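import Pool.Agent.Lib.H16L.Supp2
import Pool.Agent.Lib.H16L.Comb
import Pool.Agent.Lib.H16L.Prd
import Pool.Agent.Lib.H16L.ErNum
import Pool.Agent.Lib.H56G.Fin1

/-!
# Chunk STEP: one good integer
-/

open Finset Real

namespace Pool.Agent.Lib.H16L

open Pool.Agent.Lib.H56G

/-- the numerical conditions on `x` used in `step` -/
theorem step_ev (c : ℝ) (hc : 0 < c) (N : ℕ) : ∀ᶠ x : ℝ in Filter.atTop,
    c ≤ log x ∧ ff x ≤ (log x) ^ 3 ∧ 16 ≤ log x ∧ 8 ≤ log (log x) ∧ 11 ≤ log (log (log x)) ∧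
      log x ≤ c * ff x ∧ (N : ℝ) ≤ log x / 16 ∧
      4 * log (log x) ≤ (log x / 16) ^ (2 / 5 : ℝ) := by
  have h1 : ∀ᶠ x : ℝ in Filter.atTop, max c (max 16 (16 * N)) ≤ log x :=
    tendsto_log_atTop.eventually_ge_atTop _
  have h2 : ∀ᶠ x : ℝ in Filter.atTop, max 8 (4 / c) ≤ log (log x) :=
    (tendsto_log_atTop.comp tendsto_log_atTop).eventually_ge_atTop _
  have h3 : ∀ᶠ x : ℝ in Filter.atTop, 11 ≤ log (log (log x)) :=
    (tendsto_log_atTop.comp (tendsto_log_atTop.comp tendsto_log_atTop)).eventually_ge_atTop 11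
  have h4 : ∀ᶠ u : ℝ in Filter.atTop, 4 * log (16 * u) ≤ u ^ (2 / 5 : ℝ) := by
    have h5 := (isLittleO_log_rpow_atTop (r := 2 / 5) (by norm_num)).def
      (show (0 : ℝ) < 1 / 8 by norm_num)
    have h6 : ∀ᶠ u : ℝ in Filter.atTop, 16 ≤ u := Filter.eventually_ge_atTop 16
    filter_upwards [h5, h6] with u h5 h6
    have h7 : 0 ≤ log u := Real.log_nonneg (by linarith)
    rw [Real.norm_of_nonneg h7, Real.norm_of_nonneg (by positivity)] at h5
    rw [Real.log_mul (by norm_num) (by linarith)]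
    have h8 : log 16 ≤ log u := Real.log_le_log (by norm_num) h6
    linarith
  have h4' : ∀ᶠ x : ℝ in Filter.atTop, 4 * log (16 * (log x / 16)) ≤
      (log x / 16) ^ (2 / 5 : ℝ) :=
    (tendsto_log_atTop.atTop_div_const (by norm_num)).eventually h4
  filter_upwards [h1, h2, h3, h4', fin1_ff_le] with x h1 h2 h3 h4 h5
  have hc1 : c ≤ log x := (le_max_left _ _).trans h1
  have h16 : 16 ≤ log x := ((le_max_left _ _).trans (le_max_right _ _)).trans h1
  have hN : 16 * (N : ℝ) ≤ log x := ((le_max_right _ _).trans (le_max_right _ _)).trans h1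
  have h8 : 8 ≤ log (log x) := (le_max_left _ _).trans h2
  have h4c : 4 / c ≤ log (log x) := (le_max_right _ _).trans h2
  refine ⟨hc1, h5, h16, h8, h3, ?_, by linarith, ?_⟩
  · set L2 := log (log x) with hL2
    set L3 := log L2 with hL3
    have hL20 : 0 < L2 := by linarith
    have hs : 0 < √L2 := Real.sqrt_pos.2 hL20
    have hs2 : √L2 * √L2 = L2 := Real.mul_self_sqrt hL20.le
    have hle : L3 ≤ 2 * √L2 := by
      have e : L3 = 2 * log (√L2) := by
        rw [hL3, Real.log_sqrt hL20.le]; ring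
      have := Real.log_le_sub_one_of_pos hs
      linarith
    have hL30 : 0 < L3 := by linarith
    have hL4 : 1 ≤ log L3 := by
      rw [Real.le_log_iff_exp_le hL30]
      have := Real.exp_one_lt_d9
      linarith
    have hsq : L3 ^ 2 ≤ 4 * L2 := by nlinarith
    have hcL : 4 ≤ c * L2 := by
      rw [div_le_iff₀ hc] at h4c
      linarith
    unfold ff
    rw [← hL2, ← hL3, mul_div_assoc', le_div_iff₀ (by positivity)]
    have hLx : 0 < log x := by linarith
    calc log x * L3 ^ 2 ≤ log x * (4 * L2) := by gcongr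
      _ ≤ log x * ((c * L2) * L2) := by gcongr
      _ = c * (log x * L2 ^ 2 * 1) := by ring
      _ ≤ c * (log x * L2 ^ 2 * log L3) := by gcongr
  · have : 16 * (log x / 16) = log x := by ring
    rwa [this] at h4

/-- Chunk STEP. One good `n` for every large `x`. `c0` from `suppress2`, `c` from `er_num c0`;
`X = log x`, `y = ⌊X/8⌋`, `y1 = y/2`, `K = ⌊(log X)^4⌋`, `w = ⌊(log X)/4⌋`, `z` from `er_num`,
`H = ⌊c ff x⌋`, `S0 = Icc 1 ⌊y^(3/5)⌋`; `H10.LPF.exists_pi_sub_ge` gives `hS0` of `comb`;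
`primorial w ≤ 4^w ≤ X^(0.35) ≤ H`; the set in `comb` is contained in the union of the two sets of
`er_num` (`H10.LPF.sieved_sub`), and `prod_le` with `log K / log w ≤ 5`. So at most `c0 log x` of the
`a + k`, `k ≤ H`, are coprime to `M = primorial y`; `B = {a + k : k ≤ H, (a + k, M) = 1}`,
`suppress2` gives `t`, and `n = a + M t`. `n ≤ 2 M x^(1/2) ≤ x` (`primorial_le_four_pow`),
`n ≥ M ≥ y ≥ log x/16` (`le_primorial_self`). -/
theorem step : ∃ c : ℝ, 0 < c ∧ ∃ x0 : ℝ, ∀ x : ℝ, x0 ≤ x →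
    ∃ n : ℕ, log x / 16 ≤ n ∧ (n : ℝ) ≤ x ∧
      (∀ p : ℕ, p.Prime → p ≤ ⌊log (log x) ^ 4⌋₊ → p ∣ n + Nat.primeCounting p) ∧
      (∀ k : ℕ, 1 ≤ k → (k : ℝ) ≤ (log x / 16) ^ (3 / 5 : ℝ) →
        ∃ p : ℕ, p.Prime ∧ (p : ℝ) ≤ log x ∧ p ∣ n + k) ∧
      (∀ k : ℕ, 1 ≤ k → (k : ℝ) ≤ c * ff x →
        ∃ p : ℕ, p.Prime ∧ (p : ℝ) ≤ exp (√(log x)) ∧ p ∣ n + k) := by
  obtain ⟨c0, hc0, x1, hsup⟩ := suppress2
  obtain ⟨c, hc, x2, her⟩ := er_num c0 hc0
  obtain ⟨N, hN2, hN⟩ := Pool.Agent.Lib.H10.LPF.exists_pi_sub_ge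
  obtain ⟨x3, hev⟩ := Filter.eventually_atTop.1 (step_ev c hc N)
  refine ⟨c, hc, max (max x1 x2) (max x3 256), fun x hx => ?_⟩
  have hx1 : x1 ≤ x := ((le_max_left _ _).trans (le_max_left _ _)).trans hx
  have hx2 : x2 ≤ x := ((le_max_right _ _).trans (le_max_left _ _)).trans hx
  have hx3 : x3 ≤ x := ((le_max_left _ _).trans (le_max_right _ _)).trans hx
  have hx256 : 256 ≤ x := ((le_max_right _ _).trans (le_max_right _ _)).trans hx
  have hxpos : 0 < x := by linarith
  obtain ⟨z, hKz, hzy1, hcount⟩ := her x hx2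
  obtain ⟨hcL, hff, hL16, hL2, hL3, hffge, hyN, hpow⟩ := hev x hx3
  set L := log x with hLdef
  set y := ⌊L / 8⌋₊ with hy
  set K := ⌊log L ^ 4⌋₊ with hK
  set w := ⌊log L / 4⌋₊ with hw
  set M := primorial y with hM
  set H := ⌊c * ff x⌋₊ with hH
  have hL0 : 0 < L := by linarith
  have hL2p : 0 < log L := by linarith
  have hMpos : 0 < M := primorial_pos y
  have hyle : (y : ℝ) ≤ L / 8 := Nat.floor_le (by linarith)
  have hyge : L / 16 ≤ y := by
    have := Nat.lt_floor_add_one (L / 8)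
    rw [← hy] at this
    linarith
  have hwle : (w : ℝ) ≤ log L / 4 := Nat.floor_le (by linarith)
  have hwge : log L / 8 ≤ w := by
    have := Nat.lt_floor_add_one (log L / 4)
    rw [← hw] at this
    linarith
  have hKle : (K : ℝ) ≤ log L ^ 4 := Nat.floor_le (by positivity)
  have hw2 : 2 ≤ w := by
    rw [hw]
    exact Nat.le_floor (by push_cast; linarith)
  have hwK : w ≤ K := by
    rw [hw, hK]
    apply Nat.floor_le_floor
    have h1 : (1 : ℝ) ≤ log L ^ 3 := one_le_pow₀ (by linarith)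
    calc log L / 4 ≤ log L * 1 := by linarith
      _ ≤ log L * log L ^ 3 := by gcongr
      _ = log L ^ 4 := by ring
  have hKy : K ≤ y := hKz.trans (hzy1.trans (Nat.div_le_self _ _))
  have hK2 : 2 ≤ K := hw2.trans hwK
  have hz2 : 2 ≤ z := hK2.trans hKz
  have hlogz : 0 < log (z : ℝ) := Real.log_pos (by exact_mod_cast (by omega : 1 < z))
  have hff0 : 0 < ff x := by
    have h1 : 0 < c * ff x := by linarith
    exact pos_of_mul_pos_right h1 hc.le
  have hHle : (H : ℝ) ≤ c * ff x := Nat.floor_le (by positivity)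
  -- the classes
  set S0 := Icc 1 ⌊(L / 16) ^ (3 / 5 : ℝ)⌋₊ with hS0
  have hS0c : S0.card ≤ ((Ioc (y / 2) y).filter Nat.Prime).card := by
    have hyN' : N ≤ y := by
      have : (N : ℝ) ≤ y := hyN.trans hyge
      exact_mod_cast this
    have h1 := hN y hyN'
    have hset : (Pool.Agent.Lib.Sieve.primesUpTo y).filter (fun p => y / 2 < p) =
        (Ioc (y / 2) y).filter Nat.Prime := by
      ext p
      simp only [mem_filter, Pool.Agent.Lib.Sieve.mem_primesUpTo, mem_Ioc]
      tauto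
    rw [hset] at h1
    have hy1 : (1 : ℝ) < y := by
      have : 1 < y := by omega
      exact_mod_cast this
    have hlogy : log (y : ℝ) ≤ log L := Real.log_le_log (by linarith) (by linarith)
    have hlogy0 : 0 < log (y : ℝ) := Real.log_pos hy1
    have h2 : (S0.card : ℝ) ≤ ((Ioc (y / 2) y).filter Nat.Prime).card := by
      rw [hS0, Nat.card_Icc, Nat.add_sub_cancel]
      have h3 : ((⌊(L / 16) ^ (3 / 5 : ℝ)⌋₊ : ℕ) : ℝ) ≤ (L / 16) ^ (3 / 5 : ℝ) :=
        Nat.floor_le (by positivity)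
      refine h3.trans (le_trans ?_ h1)
      rw [le_div_iff₀ (by positivity)]
      calc (L / 16) ^ (3 / 5 : ℝ) * (4 * log (y : ℝ))
          ≤ (L / 16) ^ (3 / 5 : ℝ) * (4 * log L) := by gcongr
        _ ≤ (L / 16) ^ (3 / 5 : ℝ) * (L / 16) ^ (2 / 5 : ℝ) := by gcongr
        _ = L / 16 := by
          rw [← Real.rpow_add (by positivity)]
          norm_num
        _ ≤ y := hyge
    exact_mod_cast h2
  obtain ⟨a, ha, ha1, ha2, ha3⟩ := comb w K z (y / 2) y H hwK hKz hzy1 (Nat.div_le_self _ _)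
    S0 hS0c
  -- the number of survivors
  have hprim : primorial w ≤ H := by
    have h1 : (primorial w : ℝ) ≤ (4 : ℝ) ^ w := by exact_mod_cast primorial_le_four_pow w
    have h4 : log 4 ≤ 2 := by
      have : log 4 = 2 * log 2 := by
        rw [show (4 : ℝ) = 2 ^ 2 by norm_num, Real.log_pow]
        push_cast
        ring
      have h5 := Real.log_two_lt_d9
      linarith
    have h4' : 0 ≤ log 4 := Real.log_nonneg (by norm_num)
    have h2 : (4 : ℝ) ^ w ≤ √L := by
      have h5 : (4 : ℝ) ^ w = exp (w * log 4) := by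
        rw [mul_comm, Real.exp_mul, Real.exp_log (by norm_num), Real.rpow_natCast]
      rw [h5, Real.le_sqrt (Real.exp_pos _).le hL0.le, ← Real.exp_nat_mul]
      rw [← Real.log_le_log_iff (Real.exp_pos _) hL0, Real.log_exp] at *
      push_cast
      calc 2 * ((w : ℝ) * log 4) ≤ 2 * ((log L / 4) * 2) := by gcongr
        _ = log L := by ring
    have h3 : √L ≤ L - 1 := by
      have h6 : √L * √L = L := Real.mul_self_sqrt hL0.le
      have h7 : 4 ≤ √L := by
        rw [show (4 : ℝ) = √16 by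
          rw [show (16 : ℝ) = 4 ^ 2 by norm_num, Real.sqrt_sq (by norm_num)]]
        exact Real.sqrt_le_sqrt hL16
      nlinarith
    have h8 : L - 1 < H := by
      have := Nat.lt_floor_add_one (c * ff x)
      rw [← hH] at this
      linarith
    have : (primorial w : ℝ) ≤ H := by linarith
    exact_mod_cast this
  have hcard : (((Icc 1 H).filter (fun k => Nat.Coprime (a + k) M)).card : ℝ) ≤ c0 * L := by
    refine ha3.trans (le_trans ?_ hcount)
    have h5 := prod_le w K z hw2 hwK hKz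
    have h6 : 500 * (log (K : ℝ) / log (w : ℝ)) / log z ≤ 2500 / log z := by
      apply div_le_div_of_nonneg_right _ hlogz.le
      have hw1 : (1 : ℝ) < w := by exact_mod_cast (by omega : 1 < w)
      have hlw : 0 < log (w : ℝ) := Real.log_pos hw1
      have hK0 : (0 : ℝ) < K := by exact_mod_cast (by omega : 0 < K)
      have h7 : log (K : ℝ) ≤ 4 * log (log L) := by
        have := Real.log_le_log hK0 hKle
        rw [Real.log_pow] at this
        push_cast at this
        exact this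
      have h8 : log (log L) - log 8 ≤ log (w : ℝ) := by
        rw [← Real.log_div hL2p.ne' (by norm_num)]
        exact Real.log_le_log (by positivity) hwge
      have h9 : log 8 ≤ 2.1 := by
        have : log 8 = 3 * log 2 := by
          rw [show (8 : ℝ) = 2 ^ 3 by norm_num, Real.log_pow]
          push_cast
          ring
        have := Real.log_two_lt_d9
        linarith
      have h10 : log (K : ℝ) / log (w : ℝ) ≤ 5 := by
        rw [div_le_iff₀ hlw]
        linarith
      linarith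
    refine mul_le_mul ?_ (h5.trans h6) (by
      apply Finset.prod_nonneg
      intro p hp
      rw [mem_filter, Pool.Agent.Lib.Sieve.mem_primesUpTo] at hp
      have : (1 : ℝ) < p := by exact_mod_cast hp.1.1.one_lt
      have : 1 / (p : ℝ) ≤ 1 := by
        rw [div_le_one (by linarith)]
        linarith
      linarith) (by positivity)
    rw [← Nat.cast_add, Nat.cast_le]
    refine (card_le_card ?_).trans (card_union_le _ _)
    intro s hs
    rw [mem_filter, mem_Icc] at hs
    have h7 := Pool.Agent.Lib.H10.LPF.sieved_sub (2 * H) z (y / 2) (by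
      rw [mem_filter, mem_Icc]
      exact ⟨⟨hs.1.1, by omega⟩, hs.2⟩ : s ∈ _)
    rw [mem_union, mem_filter, mem_filter] at h7 ⊢
    exact h7
  have hWge : L ^ 4 ≤ (WW x : ℝ) := Nat.le_ceil _
  have hHW : H ≤ WW x := by
    have h1 : (H : ℝ) ≤ WW x := by
      calc (H : ℝ) ≤ c * ff x := hHle
        _ ≤ L * L ^ 3 := mul_le_mul hcL hff hff0.le hL0.le
        _ = L ^ 4 := by ring
        _ ≤ WW x := hWge
    exact_mod_cast h1
  have hyW : y ≤ WW x := by
    have h1 : (y : ℝ) ≤ WW x := by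
      calc (y : ℝ) ≤ L / 8 := hyle
        _ ≤ L := by linarith
        _ = L * 1 := by ring
        _ ≤ L * L ^ 3 := by
          apply mul_le_mul_of_nonneg_left (one_le_pow₀ (by linarith)) (by linarith)
        _ = L ^ 4 := by ring
        _ ≤ WW x := hWge
    exact_mod_cast h1
  set B : Finset ℕ := ((Icc 1 H).filter (fun k => Nat.Coprime (a + k) M)).image (fun k => a + k)
    with hB
  obtain ⟨t, ht, htp⟩ := hsup x hx1 M B
    (by
      intro p hp hWp hdvd
      rw [hM, hp.dvd_primorial_iff] at hdvd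
      omega)
    (by
      refine le_trans ?_ hcard
      exact_mod_cast Finset.card_image_le)
    (by
      intro b hb b' hb'
      obtain ⟨h, hh, rfl⟩ := Finset.mem_image.1 hb
      obtain ⟨h', hh', rfl⟩ := Finset.mem_image.1 hb'
      have h1 := Finset.mem_Icc.1 (Finset.mem_filter.1 hh).1
      have h2 := Finset.mem_Icc.1 (Finset.mem_filter.1 hh').1
      omega)
  have ht1 := Finset.mem_Icc.1 ht
  have hpM : ∀ p : ℕ, p.Prime → p ≤ y → p ∣ M := by
    intro p hp hpy
    rw [hM, hp.dvd_primorial_iff]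
    exact hpy
  refine ⟨a + M * t, ?_, ?_, ?_, ?_, ?_⟩
  · have h1 : y ≤ a + M * t := by
      have h2 : y ≤ M := le_primorial_self
      have h3 : M * 1 ≤ M * t := Nat.mul_le_mul_left _ ht1.1
      omega
    have h2 : (y : ℝ) ≤ ((a + M * t : ℕ) : ℝ) := by exact_mod_cast h1
    exact hyge.trans h2
  · have hM4 : (M : ℝ) ≤ x ^ (1 / 4 : ℝ) := by
      have h1 : (M : ℝ) ≤ (4 : ℝ) ^ y := by exact_mod_cast primorial_le_four_pow y
      refine h1.trans ?_
      have h2 : (4 : ℝ) ^ y = exp (y * log 4) := by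
        rw [mul_comm, Real.exp_mul, Real.exp_log (by norm_num), Real.rpow_natCast]
      rw [h2, Real.rpow_def_of_pos hxpos]
      apply Real.exp_le_exp.2
      have h4 : log 4 ≤ 2 := by
        have : log 4 = 2 * log 2 := by
          rw [show (4 : ℝ) = 2 ^ 2 by norm_num, Real.log_pow]
          push_cast
          ring
        have h5 := Real.log_two_lt_d9
        linarith
      have h6 : 0 ≤ log 4 := Real.log_nonneg (by norm_num)
      calc (y : ℝ) * log 4 ≤ (L / 8) * 2 := by
            apply mul_le_mul hyle h4 h6 (by linarith)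
        _ = L * (1 / 4) := by ring
    have htle : (t : ℝ) ≤ x ^ (1 / 2 : ℝ) := by
      calc (t : ℝ) ≤ (⌊x ^ (1 / 2 : ℝ)⌋₊ : ℝ) := by exact_mod_cast ht1.2
        _ ≤ x ^ (1 / 2 : ℝ) := Nat.floor_le (by positivity)
    have hx1' : (1 : ℝ) ≤ x := by linarith
    have hsq1 : (1 : ℝ) ≤ x ^ (1 / 2 : ℝ) := Real.one_le_rpow hx1' (by norm_num)
    have hale : (a : ℝ) ≤ x ^ (1 / 4 : ℝ) := by
      have : (a : ℝ) ≤ M := by exact_mod_cast ha.le
      exact this.trans hM4
    have h14 : 0 ≤ x ^ (1 / 4 : ℝ) := by positivity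
    have h4x : (4 : ℝ) ≤ x ^ (1 / 4 : ℝ) := by
      have h1 : (4 : ℝ) = (256 : ℝ) ^ (1 / 4 : ℝ) := by
        have h0 : (256 : ℝ) = (4 : ℝ) ^ (4 : ℝ) := by
          rw [show (4 : ℝ) = ((4 : ℕ) : ℝ) by norm_num, Real.rpow_natCast]
          norm_num
        rw [h0, ← Real.rpow_mul (by norm_num)]
        norm_num
      exact h1.le.trans (Real.rpow_le_rpow (by norm_num) hx256 (by norm_num))
    have hprod : x ^ (1 / 4 : ℝ) * x ^ (1 / 4 : ℝ) * x ^ (1 / 2 : ℝ) = x := by
      rw [← Real.rpow_add hxpos, ← Real.rpow_add hxpos,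
        show (1 / 4 : ℝ) + 1 / 4 + 1 / 2 = 1 by norm_num, Real.rpow_one]
    push_cast
    calc (a : ℝ) + M * t
        ≤ x ^ (1 / 4 : ℝ) + x ^ (1 / 4 : ℝ) * (x ^ (1 / 2 : ℝ)) := by
          gcongr
      _ ≤ x ^ (1 / 4 : ℝ) * (4 * x ^ (1 / 2 : ℝ)) := by nlinarith
      _ ≤ x ^ (1 / 4 : ℝ) * (x ^ (1 / 4 : ℝ) * x ^ (1 / 2 : ℝ)) := by gcongr
      _ = x := by rw [← mul_assoc]; exact hprod
  · intro p hp hpK
    have h1 := ha1 p hp hpK
    have h2 : p ∣ M * t := (hpM p hp (hpK.trans hKy)).mul_right _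
    have h3 : a + M * t + Nat.primeCounting p = (a + Nat.primeCounting p) + M * t := by ring
    rw [h3]
    exact dvd_add h1 h2
  · intro k hk1 hk2
    obtain ⟨p, hp, hpy, hpd⟩ := ha2 k (by
      rw [hS0, mem_Icc]
      exact ⟨hk1, Nat.le_floor hk2⟩)
    refine ⟨p, hp, ?_, ?_⟩
    · have : (p : ℝ) ≤ y := by exact_mod_cast hpy
      linarith
    · have h2 : p ∣ M * t := (hpM p hp hpy).mul_right _
      have h3 : a + M * t + k = (a + k) + M * t := by ring
      rw [h3]
      exact dvd_add hpd h2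
  · intro k hk1 hk2
    have hkH : k ≤ H := Nat.le_floor hk2
    by_cases hcop : Nat.Coprime (a + k) M
    · obtain ⟨p, hp, hple, hpd⟩ := htp (a + k) (by
        rw [hB, Finset.mem_image]
        exact ⟨k, by rw [Finset.mem_filter, Finset.mem_Icc]; exact ⟨⟨hk1, hkH⟩, hcop⟩, rfl⟩)
      refine ⟨p, hp, hple, ?_⟩
      have h3 : a + M * t + k = (a + k) + M * t := by ring
      rw [h3]
      exact hpd
    · obtain ⟨p, hp, hpa, hpM'⟩ := Nat.Prime.not_coprime_iff_dvd.1 hcop
      have hpy : p ≤ y := by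
        rw [hM, hp.dvd_primorial_iff] at hpM'
        exact hpM'
      refine ⟨p, hp, ?_, ?_⟩
      · have h1 : (p : ℝ) ≤ L / 8 := by
          have : (p : ℝ) ≤ y := by exact_mod_cast hpy
          linarith
        have h2 : L / 4 ≤ exp (√L) := by
          have h5 : exp (√L) = exp (√L / 2) ^ 2 := by
            rw [← Real.exp_nat_mul]
            congr 1
            push_cast
            ring
          have h6 := Real.add_one_le_exp (√L / 2)
          have h7 : 0 ≤ √L := Real.sqrt_nonneg _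
          have h8 : √L * √L = L := Real.mul_self_sqrt hL0.le
          rw [h5]
          nlinarith
        linarith
      · have h3 : a + M * t + k = (a + k) + M * t := by ring
        rw [h3]
        exact dvd_add hpa (hpM'.mul_right _)

end Pool.Agent.Lib.H16L
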