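import Pool.Agent.Lib.H56G.Suppress
import Pool.Agent.Lib.H16L.Par2

/-!
# Chunk SUPP2: the suppression theorem with small prime factors
-/

open Finset Real

namespace Pool.Agent.Lib.H16L

open Pool.Agent.Lib.H56G

/-- Variant of `H56G.suppress`: every `b + M t` (`b ∈ B`) has a prime factor `≤ exp √(log x)`.
Copy the proof of `H56G.suppress` with `par_num2`, `s = mkSys (WW x) (N2 x) M B hM hB`,
`exists_t s W .. (z := N2 x) (D1 := NN x) (D2 := N2 x)`, `V0 = log (N2 x)/(1000 log W)`.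
`hK`: `ps_le` gives the exponent `2 (R + 1) log (NN * N2)/W ≤ 4 (R + 1) log NN/W` as `N2 ≤ NN`. -/
theorem suppress2 : ∃ c0 : ℝ, 0 < c0 ∧ ∃ x0 : ℝ, ∀ x : ℝ, x0 ≤ x → ∀ (M : ℕ) (B : Finset ℕ),
    (∀ p, p.Prime → WW x < p → ¬ p ∣ M) → ((B.card : ℝ) ≤ c0 * log x) →
    (∀ b ∈ B, ∀ b' ∈ B, b ≤ b' + WW x) →
    ∃ t ∈ Icc 1 ⌊x ^ (1 / 2 : ℝ)⌋₊, ∀ b ∈ B, ∃ p : ℕ, p.Prime ∧ (p : ℝ) ≤ exp (√(log x)) ∧
      p ∣ b + M * t := by
  obtain ⟨c0, hc0, x0, hpar⟩ := par_num2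
  refine ⟨c0, hc0, max x0 1, fun x hx M B hM hB1 hB3 => ?_⟩
  have hx0 : x0 ≤ x := (le_max_left _ _).trans hx
  have hx1 : 1 ≤ x := (le_max_right _ _).trans hx
  set s := mkSys (WW x) (N2 x) M B hM hB3 with hs
  have hcard : Fintype.card {b // b ∈ B} = B.card := Fintype.card_coe B
  have hpr : ∀ i, WW x < s.pr i := fun i => (mem_Ioc.mp (mem_filter.mp i.2).1).1
  have hprN : ∀ i, s.pr i ≤ N2 x := fun i => (mem_Ioc.mp (mem_filter.mp i.2).1).2
  have hall : ∀ p, p.Prime → WW x < p → p ≤ N2 x → ∃ i, s.pr i = p := fun p hp h1 h2 =>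
    ⟨⟨p, mem_filter.mpr ⟨mem_Ioc.mpr ⟨h1, h2⟩, hp⟩⟩, rfl⟩
  -- the bound for `S`
  obtain ⟨hW2, hRW, hz1, hzN, hWz, -, hV1, hNW, hK2, -⟩ :=
    hpar x hx0 B.card hB1 _ le_rfl
  have hS := slow s (WW x) (N2 x) hW2 hpr hall (N2 x) le_rfl (by linarith) hWz
  obtain ⟨-, -, -, -, -, hS0, -, -, -, ε, τ, hε1, hε, hτ, hnum⟩ :=
    hpar x hx0 B.card hB1 _ hS
  have hW1 : 1 ≤ WW x := by omega
  have hWpos : (0 : ℝ) < WW x := by exact_mod_cast (by omega : 0 < WW x)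
  have hN1 : (1 : ℝ) ≤ NN x := by linarith
  have hlogN : 0 ≤ Real.log (NN x) := Real.log_nonneg hN1
  have hlog2 : 0 ≤ Real.log (N2 x) := Real.log_nonneg hz1.le
  have hlog2N : Real.log (N2 x) ≤ Real.log (NN x) := Real.log_le_log (by linarith) hzN
  have hlogW : 0 < Real.log (WW x) := Real.log_pos (by exact_mod_cast (by omega : 1 < WW x))
  obtain ⟨t, ht, htj⟩ := exists_t s (WW x) hW1 hpr (by rw [hcard]; exact hRW) (N2 x)
    (NN x) (N2 x) (Real.log (N2 x) / (1000 * Real.log (WW x)))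
    (Real.exp (4 * ((B.card : ℝ) + 1) * Real.log (NN x) / WW x)) ε τ hz1 hzN hz1.le hV1
    (Real.one_le_exp (by positivity)) hK2 hS0 (by
      intro κ hκ
      have h1 := VV_ge s (WW x) hW1 hpr (N2 x) κ
      have h2 := card_supp_le s κ (NN x) hκ
      have h3 := vlow s (WW x) (N2 x) hW2 hpr hall (N2 x) hz1.le le_rfl
      set V := ∑ A ∈ univ.filter (fun A : Finset _ => s.rho A ≤ (N2 x : ℝ)), 1 / s.phi A with hV
      have h4 : ((supp κ).card : ℝ) / WW x ≤ 1 / 2 := by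
        refine le_trans ?_ hNW
        gcongr
      have h5 : Real.log (N2 x) / (500 * Real.log (WW x)) ≤ V := by
        rw [div_le_iff₀ (by positivity)]
        linarith
      have h6 : 0 ≤ Real.log (N2 x) / (500 * Real.log (WW x)) := by positivity
      have h7 : (1 / 2 : ℝ) * V ≤ (1 - ((supp κ).card : ℝ) / WW x) * V :=
        mul_le_mul_of_nonneg_right (by linarith) (by linarith)
      have h8 : Real.log (N2 x) / (1000 * Real.log (WW x)) =
          1 / 2 * (Real.log (N2 x) / (500 * Real.log (WW x))) := by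
        field_simp
        ring
      rw [h8]
      linarith) (by
      intro κ hκ
      have h1 := ps_le s (WW x) hW1 hpr κ _ hκ
      refine h1.trans ?_
      have h0 : 0 ≤ s.ph κ := le_trans zero_le_one (one_le_phi s (supp κ))
      refine mul_le_mul_of_nonneg_right ?_ h0
      rw [hcard, Real.log_mul (by linarith) (by linarith)]
      apply Real.exp_le_exp.mpr
      apply div_le_div_of_nonneg_right _ hWpos.le
      have h2 : (0 : ℝ) ≤ (B.card : ℝ) + 1 := by positivity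
      nlinarith [mul_le_mul_of_nonneg_left hlog2N h2]) (by rw [hcard]; exact hε) hε1 hτ
    ⌊x ^ (1 / 2 : ℝ)⌋₊ (by
      rw [hcard]
      exact hnum)
  refine ⟨t, ht, fun b hb => ?_⟩
  obtain ⟨i, hi⟩ := htj ⟨b, hb⟩
  refine ⟨s.pr i, s.prime i, ?_, hi⟩
  have h2 := hprN i
  have h4 : (N2 x : ℝ) ≤ exp (√(log x)) := Nat.floor_le (Real.exp_pos _).le
  have h5 : ((s.pr i : ℕ) : ℝ) ≤ N2 x := by exact_mod_cast h2
  exact h5.trans h4

end Pool.Agent.Lib.H16L
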